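import Pool.Agent.Helper96.BD.Proj

/-!
Modules projective for `g` have summands of dimension divisible by `p`.
-/

universe u v w

namespace Pool.Agent.H96BD

open Pool.Agent.H80Green

variable {k : Type u} [Field k] {G : Type v} [Group G]

lemma ProjAt.dvd {p : ℕ} [CharP k p] {B : Md k G} {g : G} (h : ProjAt p B g) : p ∣ B.dim := by
  obtain ⟨φ, hφ⟩ := h
  have h1 := congrArg (LinearMap.trace k B.carrier) hφ
  rw [map_sum, LinearMap.trace_one] at h1
  have h2 : ∀ i ∈ Finset.range p, LinearMap.trace k B.carrier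
      (B.rep (g ^ i) * φ * B.rep (g⁻¹ ^ i)) = LinearMap.trace k B.carrier φ := by
    intro i _
    rw [LinearMap.trace_mul_comm, ← mul_assoc, ← map_mul, inv_pow, inv_mul_cancel, map_one,
      one_mul]
  rw [Finset.sum_congr rfl h2, Finset.sum_const, Finset.card_range, nsmul_eq_mul,
    CharP.cast_eq_zero, zero_mul] at h1
  exact (CharP.cast_eq_zero_iff k p _).1 h1.symm

lemma ProjAt.of_iso {p : ℕ} {A B : Md k G} {g : G} (h : Md.Iso A B) (hA : ProjAt p A g) :
    ProjAt p B g := by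
  obtain ⟨e, he⟩ := h
  obtain ⟨φ, hφ⟩ := hA
  refine ⟨e.toLinearMap ∘ₗ φ ∘ₗ e.symm.toLinearMap, ?_⟩
  refine LinearMap.ext fun b => ?_
  have he' : ∀ (g : G) (b : B.carrier), e.symm (B.rep g b) = A.rep g (e.symm b) := by
    intro g b
    rw [LinearEquiv.symm_apply_eq, he, LinearEquiv.apply_symm_apply]
  have h1 := congrArg e (LinearMap.congr_fun hφ (e.symm b))
  rw [LinearMap.sum_apply, map_sum] at h1
  rw [LinearMap.sum_apply]
  refine Eq.trans (Finset.sum_congr rfl fun i _ => ?_) (h1.trans ?_)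
  · change B.rep (g ^ i) (e (φ (e.symm (B.rep (g⁻¹ ^ i) b)))) =
      e (A.rep (g ^ i) (φ (A.rep (g⁻¹ ^ i) (e.symm b))))
    rw [he, he']
  · exact e.apply_symm_apply b

lemma ProjAt.left {p : ℕ} {A B : Md k G} {g : G} (h : ProjAt p (A.prod B) g) :
    ProjAt p A g := by
  obtain ⟨φ, hφ⟩ := h
  refine ⟨LinearMap.fst k _ _ ∘ₗ φ ∘ₗ LinearMap.inl k _ _, ?_⟩
  refine LinearMap.ext fun a => ?_
  have h1 := congrArg Prod.fst (LinearMap.congr_fun hφ ((a, 0) : A.carrier × B.carrier))
  rw [LinearMap.sum_apply, Prod.fst_sum] at h1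
  rw [LinearMap.sum_apply]
  refine Eq.trans (Finset.sum_congr rfl fun i _ => ?_) h1
  have h2 : (A.prod B).rep (g⁻¹ ^ i) ((a, 0) : A.carrier × B.carrier) =
      (A.rep (g⁻¹ ^ i) a, 0) := by
    rw [Md.prod_rep, map_zero]
  change A.rep (g ^ i) (φ (A.rep (g⁻¹ ^ i) a, 0)).1 =
    A.rep (g ^ i) (φ ((A.prod B).rep (g⁻¹ ^ i) ((a, 0) : A.carrier × B.carrier))).1
  rw [h2]

lemma ProjAt.right {p : ℕ} {A B : Md k G} {g : G} (h : ProjAt p (A.prod B) g) :
    ProjAt p B g := by
  obtain ⟨φ, hφ⟩ := h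
  refine ⟨LinearMap.snd k _ _ ∘ₗ φ ∘ₗ LinearMap.inr k _ _, ?_⟩
  refine LinearMap.ext fun a => ?_
  have h1 := congrArg Prod.snd (LinearMap.congr_fun hφ ((0, a) : A.carrier × B.carrier))
  rw [LinearMap.sum_apply, Prod.snd_sum] at h1
  rw [LinearMap.sum_apply]
  refine Eq.trans (Finset.sum_congr rfl fun i _ => ?_) h1
  have h2 : (A.prod B).rep (g⁻¹ ^ i) ((0, a) : A.carrier × B.carrier) =
      (0, B.rep (g⁻¹ ^ i) a) := by
    rw [Md.prod_rep, map_zero]
  change B.rep (g ^ i) (φ (0, B.rep (g⁻¹ ^ i) a)).2 =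
    B.rep (g ^ i) (φ ((A.prod B).rep (g⁻¹ ^ i) ((0, a) : A.carrier × B.carrier))).2
  rw [h2]

/-- A species which vanishes on the indecomposable modules of dimension divisible by `p` vanishes
on the modules projective for `g`. -/
theorem val_eq_zero_of_projAt {p : ℕ} [CharP k p] (s : Spc k G) (g : G)
    (hs : ∀ B : Md k G, B.Indecomposable → p ∣ B.dim → s.val B = 0) :
    ∀ B : Md k G, ProjAt p B g → s.val B = 0 := by
  have key : ∀ n : ℕ, ∀ B : Md k G, B.dim ≤ n → ProjAt p B g → s.val B = 0 := by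
    intro n
    induction n with
    | zero =>
      intro B hB _
      exact s.toSpecies.val_of_dim_zero B (Nat.le_zero.1 hB)
    | succ n ih =>
      intro B hB hP
      by_cases hi : B.Indecomposable
      · exact hs B hi hP.dvd
      · by_cases h0 : B.dim = 0
        · exact s.toSpecies.val_of_dim_zero B h0
        · have : ∃ Y Z : Md k G, Md.Isom B (Y.prod Z) ∧ Y.dim ≠ 0 ∧ Z.dim ≠ 0 := by
            by_contra hcon
            push Not at hcon
            exact hi ⟨Nat.pos_of_ne_zero h0, fun Y Z hYZ => by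
              by_cases hY : Y.dim = 0
              · exact Or.inl hY
              · exact Or.inr (hcon Y Z hYZ hY)⟩
          obtain ⟨Y, Z, hYZ, hY, hZ⟩ := this
          have hiso := (Md.isom_iff _ _).1 hYZ
          have hd := hiso.dim_eq
          rw [Md.dim_prod] at hd
          have hP' := ProjAt.of_iso hiso hP
          rw [s.iso _ _ hYZ, s.add, ih Y (by omega) hP'.left, ih Z (by omega) hP'.right, add_zero]
  exact fun B hB => key B.dim B le_rfl hB

end Pool.Agent.H96BD
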