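import Pool.Agent.Helper96.BD.Main

/-!
Exact self-conjugacy when the species vanishes on the symmetric forms of degree `n`,
`p - dim X < n < p`.
-/

universe u v

namespace Pool.Agent.H96BD

open Pool.Agent.H80Green

open scoped TensorProduct

open PowerSeries in
/-- If the complete symmetric functions vanish in the degrees `p - N < n < p`, the `p`-th powers
of the roots agree. -/
lemma pow_eq_of_vanish {N p : ℕ} (hN : N < p) (y : Fin N → ℂ) (hy : ∀ a, y a ≠ 0)
    (H : PowerSeries ℂ)
    (h : ∀ n < p, coeff n ((∏ a, (1 - C (y a) * X)) * H) = coeff n (1 : PowerSeries ℂ))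
    (hv : ∀ n, p - N < n → n < p → coeff n H = 0) :
    (∃ c : ℂ, ∀ a, y a ^ p = c) ∧ Function.Injective y := by
  classical
  let A : Polynomial ℂ := ∏ a, (1 - Polynomial.C (y a) * Polynomial.X)
  let B : Polynomial ℂ := PowerSeries.trunc (p - N + 1) H
  have hA : (A : PowerSeries ℂ) = ∏ a, (1 - C (y a) * X) := by
    simp only [A]
    rw [coe_prod_poly]
    refine Finset.prod_congr rfl fun a _ => ?_
    simp only [Polynomial.coe_sub, Polynomial.coe_one, Polynomial.coe_mul, Polynomial.coe_C,
      Polynomial.coe_X]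
  have hAd : A.natDegree ≤ N := by
    refine (Polynomial.natDegree_prod_le _ _).trans ?_
    calc ∑ a : Fin N, (1 - Polynomial.C (y a) * Polynomial.X : Polynomial ℂ).natDegree
        ≤ ∑ _a : Fin N, 1 := Finset.sum_le_sum fun a _ => by
          refine (Polynomial.natDegree_sub_le _ _).trans ?_
          rw [Polynomial.natDegree_one]
          exact max_le (by omega) ((Polynomial.natDegree_C_mul_le _ _).trans Polynomial.natDegree_X_le)
      _ = N := by simp
  have hBd : B.natDegree ≤ p - N :=
    Nat.lt_succ_iff.1 (PowerSeries.natDegree_trunc_lt H (p - N))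
  have hABd : (A * B).natDegree ≤ p := Polynomial.natDegree_mul_le.trans (by omega)
  have hB : ∀ n < p, coeff n (B : PowerSeries ℂ) = coeff n H := by
    intro n hn
    rw [Polynomial.coeff_coe, PowerSeries.coeff_trunc]
    split_ifs with h1
    · rfl
    · rw [hv n (by omega) hn]
  have hAB : ∀ n < p, (A * B).coeff n = (1 : Polynomial ℂ).coeff n := by
    intro n hn
    rw [← Polynomial.coeff_coe, Polynomial.coe_mul, hA,
      coeff_mul_congr _ hB n hn, h n hn, ← Polynomial.coeff_coe, Polynomial.coe_one]
  have hkey : A * B = 1 + Polynomial.C ((A * B).coeff p) * Polynomial.X ^ p := by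
    ext n
    rw [Polynomial.coeff_add, Polynomial.coeff_C_mul_X_pow]
    rcases Nat.lt_trichotomy n p with h1 | h1 | h1
    · rw [hAB n h1, if_neg (by omega), add_zero]
    · subst h1
      rw [if_pos rfl, Polynomial.coeff_one, if_neg (by omega), zero_add]
    · rw [Polynomial.coeff_eq_zero_of_natDegree_lt (lt_of_le_of_lt hABd h1),
        if_neg (by omega), Polynomial.coeff_one, if_neg (by omega), add_zero]
  have hc0 : (A * B).coeff p = 0 → IsEmpty (Fin N) := by
    intro h0
    refine ⟨fun a => ?_⟩
    rw [h0, Polynomial.C_0, zero_mul, add_zero] at hkey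
    have h2 := congrArg (Polynomial.eval (y a)⁻¹) hkey
    have h3 : Polynomial.eval (y a)⁻¹ A = 0 := by
      simp only [A]
      rw [Polynomial.eval_prod]
      apply Finset.prod_eq_zero (Finset.mem_univ a)
      simp [hy a]
    rw [Polynomial.eval_mul, h3, zero_mul, Polynomial.eval_one] at h2
    exact zero_ne_one h2
  refine ⟨⟨-(A * B).coeff p, fun a => ?_⟩, fun a b hab => ?_⟩
  swap
  · by_contra hne
    set q : Polynomial ℂ := 1 - Polynomial.C (y a) * Polynomial.X with hq
    have h5 : ∃ Z : Polynomial ℂ, A = q * (q * Z) := by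
      refine ⟨∏ c ∈ (Finset.univ.erase a).erase b, (1 - Polynomial.C (y c) * Polynomial.X), ?_⟩
      have h6 := Finset.mul_prod_erase Finset.univ
        (fun c => (1 - Polynomial.C (y c) * Polynomial.X : Polynomial ℂ)) (Finset.mem_univ a)
      have h7 := Finset.mul_prod_erase (Finset.univ.erase a)
        (fun c => (1 - Polynomial.C (y c) * Polynomial.X : Polynomial ℂ))
        (Finset.mem_erase.2 ⟨fun h => hne h.symm, Finset.mem_univ b⟩)
      simp only [A]
      rw [← h6, ← h7, hq, hab]
    obtain ⟨Z, hZ⟩ := h5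
    have h8 := congrArg (fun r : Polynomial ℂ => Polynomial.eval (y a)⁻¹
      (Polynomial.derivative r)) hkey
    simp only [hZ, Polynomial.derivative_mul, Polynomial.derivative_add,
      Polynomial.derivative_one, Polynomial.derivative_C, Polynomial.derivative_X_pow,
      Polynomial.eval_add, Polynomial.eval_mul, Polynomial.eval_C,
      Polynomial.eval_pow, Polynomial.eval_X, zero_mul, zero_add] at h8
    have h9 : Polynomial.eval (y a)⁻¹ q = 0 := by
      rw [hq]
      simp [hy a]
    rw [h9] at h8
    have h10 : (A * B).coeff p ≠ 0 := fun h0 => (hc0 h0).false a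
    rw [hZ] at h10
    have hp0 : (p : ℂ) ≠ 0 := by
      have : p ≠ 0 := by omega
      exact_mod_cast this
    have h11 : ((y a)⁻¹ : ℂ) ^ (p - 1) ≠ 0 := pow_ne_zero _ (inv_ne_zero (hy a))
    have h12 : (q * (q * Z) * B).coeff p * ((p : ℂ) * (y a)⁻¹ ^ (p - 1)) ≠ 0 :=
      mul_ne_zero h10 (mul_ne_zero hp0 h11)
    apply h12
    rw [← h8]
    ring
  have h2 := congrArg (Polynomial.eval (y a)⁻¹) hkey
  have h3 : Polynomial.eval (y a)⁻¹ A = 0 := by
    simp only [A]
    rw [Polynomial.eval_prod]
    apply Finset.prod_eq_zero (Finset.mem_univ a)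
    simp [hy a]
  rw [Polynomial.eval_mul, h3, zero_mul] at h2
  simp only [Polynomial.eval_add, Polynomial.eval_one, Polynomial.eval_mul, Polynomial.eval_C,
    Polynomial.eval_pow, Polynomial.eval_X, inv_pow] at h2
  have h4 : y a ^ p ≠ 0 := pow_ne_zero _ (hy a)
  field_simp at h2
  linear_combination -h2

/-- Roots with equal `p`-th powers and product of absolute value one lie on the unit circle. -/
lemma norm_one_of_pow {N p : ℕ} (hp : 0 < p) (x : Fin N → ℂ) (hx : ∀ a b, x a ^ p = x b ^ p)
    (hprod : ‖∏ a, x a‖ = 1) (a : Fin N) : ‖x a‖ = 1 := by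
  have h1 : ∀ b, ‖x b‖ = ‖x a‖ := by
    intro b
    have h2 := congrArg norm (hx b a)
    rw [norm_pow, norm_pow] at h2
    exact (pow_left_inj₀ (norm_nonneg _) (norm_nonneg _) hp.ne').1 h2
  rw [norm_prod, Finset.prod_congr rfl fun b _ => h1 b, Finset.prod_const, Finset.card_univ,
    Fintype.card_fin] at hprod
  have hN : N ≠ 0 := by
    rintro rfl
    exact a.elim0
  exact (pow_eq_one_iff_of_nonneg (norm_nonneg _) hN).1 hprod

variable {k : Type u} [Field k] {G : Type v} [Group G]

/-- the value on the top exterior power is the product of the roots -/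
lemma val_top_eq_prod (s : Species k G) (M : Md k G) (x : Fin M.dim → ℂ)
    (h1 : s.eser M = ∏ a, (1 + PowerSeries.C (x a) * PowerSeries.X)) :
    s.val (M.ext M.dim) = ∏ a, x a := by
  have h3 : s.val (M.ext M.dim) = PowerSeries.coeff M.dim (s.eser M) := by
    rw [Species.eser, PowerSeries.coeff_mk]
  rw [h3, h1]
  have h7 : ((∏ a, (1 + Polynomial.C (x a) * Polynomial.X) : Polynomial ℂ) : PowerSeries ℂ) =
      ∏ a, (1 + PowerSeries.C (x a) * PowerSeries.X) := by
    rw [coe_prod_poly]
    refine Finset.prod_congr rfl fun a _ => ?_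
    simp only [Polynomial.coe_add, Polynomial.coe_one, Polynomial.coe_mul, Polynomial.coe_C,
      Polynomial.coe_X]
  rw [← h7, Polynomial.coeff_coe]
  have h8 := Polynomial.coeff_prod_of_natDegree_le (Finset.univ : Finset (Fin M.dim))
    (fun a => (1 + Polynomial.C (x a) * Polynomial.X : Polynomial ℂ)) 1 (fun a _ => by
      refine (Polynomial.natDegree_add_le _ _).trans ?_
      rw [Polynomial.natDegree_one]
      exact max_le (by omega)
        ((Polynomial.natDegree_C_mul_le _ _).trans Polynomial.natDegree_X_le))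
  rw [Finset.card_univ, Fintype.card_fin, mul_one] at h8
  rw [h8]
  refine Finset.prod_congr rfl fun a _ => ?_
  simp [Polynomial.coeff_one]

/-- the value on the top exterior power has absolute value one -/
lemma norm_prod_one (s : Species k G) (hs : s.DimBounded) (M : Md k G) (x : Fin M.dim → ℂ)
    (h1 : s.eser M = ∏ a, (1 + PowerSeries.C (x a) * PowerSeries.X)) :
    ‖∏ a, x a‖ = 1 := by
  have hd : (M.ext M.dim).dim = 1 := by rw [Md.dim_ext, Nat.choose_self]
  have h2 := val_top_eq_prod s M x h1
  have h3 := s.iso _ _ (Md.dim_one_dual _ hd)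
  rw [s.mul, s.one] at h3
  have h4 : ‖s.val (M.ext M.dim)‖ ≤ 1 := by
    have := hs.le (M.ext M.dim)
    rwa [hd, Nat.cast_one] at this
  have h5 : ‖s.val (M.ext M.dim).dual‖ ≤ 1 := by
    have := hs.le (M.ext M.dim).dual
    rwa [Md.dim_dual, hd, Nat.cast_one] at this
  have h6 := congrArg norm h3
  rw [norm_mul, norm_one] at h6
  rw [← h2]
  nlinarith [norm_nonneg (s.val (M.ext M.dim)), norm_nonneg (s.val (M.ext M.dim).dual)]

lemma val_tpow (s : Species k G) (L : Md k G) (m : ℕ) : s.val (L.tpow m) = s.val L ^ m := by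
  induction m with
  | zero => rw [Md.tpow, s.one, pow_zero]
  | succ m ih => rw [Md.tpow, s.mul, ih, pow_succ]

/-- the action on a one dimensional module is by scalars -/
lemma exists_scalar (L : Md k G) (hL : L.dim = 1) (g : G) :
    ∃ c : k, ∀ x, L.rep g x = c • x := by
  have hL' : Module.finrank k L.carrier = 1 := hL
  obtain ⟨e, he⟩ := finrank_eq_one_iff'.1 hL'
  obtain ⟨he0, he1⟩ := he
  obtain ⟨c, hc⟩ := he1 (L.rep g e)
  refine ⟨c, fun x => ?_⟩
  obtain ⟨d, rfl⟩ := he1 x
  rw [map_smul, ← hc, smul_smul, smul_smul, mul_comm]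

/-- for a finite group the value on a one dimensional module is a root of unity -/
lemma val_pow_card [Finite G] (s : Species k G) (L : Md k G) (hL : L.dim = 1) :
    s.val L ^ Nat.card G = 1 := by
  choose χ hχ using exists_scalar L hL
  have h1 : ∀ (m : ℕ) (g : G) (x : (L.tpow m).carrier), (L.tpow m).rep g x = χ g ^ m • x := by
    intro m
    induction m with
    | zero =>
      intro g x
      rw [pow_zero, one_smul]
      rfl
    | succ m ih =>
      intro g x
      have hx : ∀ x : (L.tpow m).carrier ⊗[k] L.carrier,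
          ((L.tpow m).tensor L).rep g x = χ g ^ (m + 1) • x := by
        intro x
        induction x using TensorProduct.induction_on with
        | zero => rw [map_zero, smul_zero]
        | tmul a b =>
          rw [Md.tensor_rep, ih, hχ, TensorProduct.smul_tmul_smul, pow_succ]
        | add a b ha hb =>
          rw [map_add, ha, hb, smul_add]
      exact hx x
  have h2 : ∀ g, χ g ^ Nat.card G = 1 := by
    intro g
    have hpow : ∀ (m : ℕ) (x : L.carrier), L.rep (g ^ m) x = χ g ^ m • x := by
      intro m
      induction m with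
      | zero =>
        intro x
        simp
      | succ m ih =>
        intro x
        rw [pow_succ, map_mul, Module.End.mul_apply, hχ g x, map_smul, ih, smul_smul, pow_succ,
          mul_comm]
    have hL' : Module.finrank k L.carrier = 1 := hL
    have hnt : Nontrivial L.carrier := Module.nontrivial_of_finrank_pos (R := k) (by omega)
    obtain ⟨x, hx⟩ := exists_ne (0 : L.carrier)
    have h3 := hpow (Nat.card G) x
    rw [pow_card_eq_one', map_one] at h3
    have h4 : (χ g ^ Nat.card G - 1) • x = 0 := by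
      rw [sub_smul, one_smul, ← h3]
      simp
    have h5 := (smul_eq_zero.1 h4).resolve_right hx
    exact sub_eq_zero.1 h5
  have h6 : Md.Iso (L.tpow (Nat.card G)) (Md.triv k G) := by
    have hd : Module.finrank k (L.tpow (Nat.card G)).carrier =
        Module.finrank k (Md.triv k G).carrier := by
      have h7 := Md.dim_tpow L (Nat.card G)
      rw [hL, one_pow] at h7
      have h8 : Module.finrank k (Md.triv k G).carrier = 1 := Md.dim_triv
      rw [h8]
      exact h7
    refine ⟨LinearEquiv.ofFinrankEq _ _ hd, fun g x => ?_⟩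
    rw [h1, h2, one_smul]
    rfl
  rw [← val_tpow, s.iso _ _ h6, s.one]

/-- **Exact self-conjugacy** when the symmetric forms of degree `n`, `p - N < n < p`, are killed
by the species. -/
theorem exact_of_vanish (s : Species k G) (hs : s.DimBounded) (M : Md k G) {p : ℕ}
    (hp : ∀ i, 1 ≤ i → i < p → ((i : ℕ) : k) ≠ 0) (hM : M.dim < p)
    (hv : ∀ n, p - M.dim < n → n < p → s.val (Hm M n) = 0) :
    ∃ x : Fin M.dim → ℂ, Function.Injective x ∧ s.val M = ∑ a, x a ∧ (∀ a, ‖x a‖ = 1) ∧
      (∀ a b, x a ^ p = x b ^ p) ∧ (Finite G → ∃ m : ℕ, 0 < m ∧ ∀ a, x a ^ m = 1) ∧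
      s.val M.dual = (starRingEnd ℂ) (s.val M) := by
  obtain ⟨t, ht, h1, h2⟩ := s.exists_roots_dual M
  have h3 : (PowerSeries.mk fun j => s.val (M.ext j).dual : PowerSeries ℂ) =
      ∏ a, (1 + PowerSeries.C (t a)⁻¹ * PowerSeries.X) := by
    have h4 := congrArg (PowerSeries.map (starRingEnd ℂ)) h2
    rw [map_conj_prod] at h4
    simp only [Complex.conj_conj] at h4
    rw [← h4]
    ext j
    rw [PowerSeries.coeff_map, Species.eser, PowerSeries.coeff_mk, PowerSeries.coeff_mk,
      Species.conjDual_val, Complex.conj_conj]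
  obtain ⟨⟨c, hc⟩, hinj⟩ := pow_eq_of_vanish hM (fun a => (t a)⁻¹) (fun a => inv_ne_zero (ht a))
    (hser s M) (hser_mul s M hp _ h3) (fun n h4 h5 => by
      rw [hser, PowerSeries.coeff_mk]
      exact hv n h4 h5)
  have h4 : ∀ a b, t a ^ p = t b ^ p := by
    intro a b
    have h5 := (hc a).trans (hc b).symm
    simp only [inv_pow] at h5
    exact inv_injective h5
  have h5 : ∀ a, ‖t a‖ = 1 := norm_one_of_pow (by omega) t h4 (norm_prod_one s hs M t h1)
  refine ⟨t, fun a b hab => hinj (by simp only [hab]), s.val_eq_sum M t h1, h5, h4, ?_, ?_⟩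
  · intro hG
    rcases Nat.eq_zero_or_pos M.dim with h0 | h0
    · exact ⟨1, one_pos, fun a => by
        have := a.2
        omega⟩
    · refine ⟨p * (M.dim * Nat.card G),
        Nat.mul_pos (by omega) (Nat.mul_pos h0 Nat.card_pos), fun a => ?_⟩
      have h6 : (∏ b, t b) ^ Nat.card G = 1 := by
        rw [← val_top_eq_prod s M t h1]
        exact val_pow_card s _ (by rw [Md.dim_ext, Nat.choose_self])
      have h7 : (t a ^ p) ^ M.dim = (∏ b, t b) ^ p := by
        rw [← Finset.prod_pow, Finset.prod_congr rfl fun b _ => h4 b a, Finset.prod_const,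
          Finset.card_univ, Fintype.card_fin]
      rw [pow_mul, pow_mul, h7, ← pow_mul, mul_comm p, pow_mul, h6, one_pow]
  · rw [s.val_dual_eq_sum M t h2, s.val_eq_sum M t h1, map_sum]
    refine Finset.sum_congr rfl fun a _ => ?_
    rw [Complex.inv_def, Complex.normSq_eq_norm_sq, h5 a]
    simp

end Pool.Agent.H96BD
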