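import Pool.Agent.Helper96.BD.Mods

/-!
Higman's criterion for a cyclic group of order `p`, and the kernel of a split map.
-/

universe u v w

namespace Pool.Agent.H96BD

open Fin

section Abstract

variable {k : Type u} [Field k] {M : Type w} [AddCommGroup M] [Module k M]

/-- The sum of the conjugates of `ψ` under the powers of `γ`. -/
noncomputable def cyc (p : ℕ) (γ γ' ψ : Module.End k M) : Module.End k M :=
  ∑ i ∈ Finset.range p, γ ^ i * ψ * γ' ^ i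

lemma cyc_apply (p : ℕ) (γ γ' ψ : Module.End k M) (x : M) :
    cyc p γ γ' ψ x = ∑ i ∈ Finset.range p, (γ ^ i) (ψ ((γ' ^ i) x)) := by
  simp [cyc, LinearMap.sum_apply]

lemma pow_inv_one {p : ℕ} {γ γ' : Module.End k M} (h : γ * γ' = 1) (h' : γ' * γ = 1)
    (hp : γ ^ p = 1) : γ' ^ p = 1 := by
  have h1 : Commute γ γ' := by rw [Commute, SemiconjBy, h, h']
  have h2 := h1.mul_pow p
  rw [h, one_pow, hp, one_mul] at h2
  exact h2.symm

lemma cyc_comm {p : ℕ} {γ γ' : Module.End k M} (h : γ * γ' = 1) (h' : γ' * γ = 1)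
    (hp : γ ^ p = 1) (ψ : Module.End k M) : γ * cyc p γ γ' ψ = cyc p γ γ' ψ * γ := by
  have hp' := pow_inv_one h h' hp
  have h1 : γ * cyc p γ γ' ψ * γ' = cyc p γ γ' ψ := by
    have h2 : γ * cyc p γ γ' ψ * γ' =
        ∑ i ∈ Finset.range p, γ ^ (i + 1) * ψ * γ' ^ (i + 1) := by
      rw [cyc, Finset.mul_sum, Finset.sum_mul]
      refine Finset.sum_congr rfl fun i _ => ?_
      rw [pow_succ' γ, pow_succ γ']
      simp only [mul_assoc]
    have h3 := Finset.sum_range_succ (fun i => γ ^ i * ψ * γ' ^ i) p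
    rw [Finset.sum_range_succ' (fun i => γ ^ i * ψ * γ' ^ i) p, hp, hp', pow_zero, pow_zero] at h3
    rw [h2]
    exact add_right_cancel h3
  calc γ * cyc p γ γ' ψ = γ * cyc p γ γ' ψ * (γ' * γ) := by rw [h', mul_one]
    _ = (γ * cyc p γ γ' ψ * γ') * γ := by simp only [mul_assoc]
    _ = _ := by rw [h1]

/-- The subspace `A` is projective for the cyclic group generated by `γ`. -/
def HigS (p : ℕ) (γ γ' : Module.End k M) (A : Submodule k M) : Prop :=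
  ∃ φ : Module.End k M, (∀ a ∈ A, φ a ∈ A) ∧ ∀ a ∈ A, cyc p γ γ' φ a = a

lemma stab_pow {γ : Module.End k M} {A : Submodule k M} (hA : ∀ a ∈ A, γ a ∈ A) (i : ℕ) :
    ∀ a ∈ A, (γ ^ i) a ∈ A := by
  induction i with
  | zero => exact fun a ha => by simpa using ha
  | succ i ih =>
    intro a ha
    rw [pow_succ', Module.End.mul_apply]
    exact hA _ (ih a ha)

lemma comm_pow {γ ι : Module.End k M} {A : Submodule k M} (hA : ∀ a ∈ A, γ a ∈ A)
    (hι : ∀ a ∈ A, ι (γ a) = γ (ι a)) (i : ℕ) : ∀ a ∈ A, ι ((γ ^ i) a) = (γ ^ i) (ι a) := by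
  induction i with
  | zero => exact fun a _ => by simp
  | succ i ih =>
    intro a ha
    rw [pow_succ', Module.End.mul_apply, Module.End.mul_apply, hι _ (stab_pow hA i a ha), ih a ha]

lemma stab_cyc {p : ℕ} {γ γ' ψ : Module.End k M} {A B : Submodule k M}
    (hA : ∀ a ∈ A, γ a ∈ A) (hB : ∀ b ∈ B, γ' b ∈ B) (h : ∀ b ∈ B, ψ b ∈ A) :
    ∀ b ∈ B, cyc p γ γ' ψ b ∈ A := by
  intro b hb
  rw [cyc_apply]
  exact A.sum_mem fun i _ => stab_pow hA i _ (h _ (stab_pow hB i b hb))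

/-- The kernel of a surjection between projective subspaces is projective. -/
lemma HigS.ker {p : ℕ} {γ γ' : Module.End k M} (h : γ * γ' = 1) (h' : γ' * γ = 1)
    (hp : γ ^ p = 1) {A B A' : Submodule k M} (hA : ∀ a ∈ A, γ a ∈ A) (hA2 : ∀ a ∈ A, γ' a ∈ A)
    (hB2 : ∀ a ∈ B, γ' a ∈ B) (ι σ : Module.End k M)
    (hι : ∀ a ∈ A, ι a ∈ B) (hιγ : ∀ a ∈ A, ι (γ a) = γ (ι a)) (hσ : ∀ b ∈ B, σ b ∈ A)
    (hισ : ∀ b ∈ B, ι (σ b) = b) (hA' : ∀ a, a ∈ A' ↔ a ∈ A ∧ ι a = 0)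
    (h1 : HigS p γ γ' A) (h2 : HigS p γ γ' B) : HigS p γ γ' A' := by
  obtain ⟨φA, hφA, hφA2⟩ := h1
  obtain ⟨φB, hφB, hφB2⟩ := h2
  have hγγ' : ∀ x, γ (γ' x) = x := fun x => LinearMap.congr_fun h x
  have hγ'γ : ∀ x, γ' (γ x) = x := fun x => LinearMap.congr_fun h' x
  have hιγ' : ∀ a ∈ A, ι (γ' a) = γ' (ι a) := by
    intro a ha
    have h3 := hιγ _ (hA2 a ha)
    rw [hγγ'] at h3
    rw [h3, hγ'γ]
  set τ : Module.End k M := cyc p γ γ' (σ * φB) with hτ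
  have hτA : ∀ b ∈ B, τ b ∈ A := stab_cyc hA hB2 fun b hb => hσ _ (hφB b hb)
  have hτι : ∀ b ∈ B, ι (τ b) = b := by
    intro b hb
    rw [hτ, cyc_apply, map_sum]
    have h3 : ∀ i ∈ Finset.range p, ι ((γ ^ i) ((σ * φB) ((γ' ^ i) b))) =
        (γ ^ i) (φB ((γ' ^ i) b)) := by
      intro i _
      have h4 := hφB _ (stab_pow hB2 i b hb)
      rw [Module.End.mul_apply, comm_pow hA hιγ i _ (hσ _ h4), hισ _ h4]
    rw [Finset.sum_congr rfl h3, ← cyc_apply]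
    exact hφB2 b hb
  have hτγ : ∀ x, γ (τ x) = τ (γ x) := fun x =>
    LinearMap.congr_fun (cyc_comm h h' hp (σ * φB)) x
  set π : Module.End k M := 1 - τ * ι with hπ
  have hπa : ∀ x, π x = x - τ (ι x) := fun x => rfl
  have hπA' : ∀ a ∈ A, π a ∈ A' := by
    intro a ha
    rw [hA', hπa]
    refine ⟨A.sub_mem ha (hτA _ (hι a ha)), ?_⟩
    rw [map_sub, hτι _ (hι a ha), sub_self]
  have hπγ : ∀ a ∈ A, π (γ a) = γ (π a) := by
    intro a ha
    rw [hπa, hπa, map_sub, hιγ a ha, hτγ]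
  refine ⟨π * φA, fun a ha => hπA' _ (hφA a ((hA' a).1 ha).1), fun a ha => ?_⟩
  obtain ⟨ha1, ha2⟩ := (hA' a).1 ha
  rw [cyc_apply]
  have h3 : ∀ i ∈ Finset.range p, (γ ^ i) ((π * φA) ((γ' ^ i) a)) =
      π ((γ ^ i) (φA ((γ' ^ i) a))) := by
    intro i _
    rw [Module.End.mul_apply, comm_pow hA hπγ i _ (hφA _ (stab_pow hA2 i a ha1))]
  rw [Finset.sum_congr rfl h3, ← map_sum, ← cyc_apply, hφA2 a ha1, hπa, ha2, map_zero, sub_zero]

end Abstract

section Weyl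

variable {k : Type u} [Field k] {R : Type w} [Ring R] [Algebra k R]

lemma weyl_pow {ι μ : R} (h : ι * μ = 1 + μ * ι) (j : ℕ) :
    ι * μ ^ (j + 1) = μ ^ (j + 1) * ι + ((j + 1 : ℕ) : k) • μ ^ j := by
  induction j with
  | zero => simp [h, add_comm]
  | succ j ih =>
    rw [pow_succ, ← mul_assoc, ih, add_mul, mul_assoc, h, mul_add, mul_one, smul_mul_assoc,
      ← pow_succ, ← mul_assoc, ← pow_succ]
    have h1 : (((j + 1 + 1 : ℕ) : k)) • μ ^ (j + 1) = μ ^ (j + 1) + ((j + 1 : ℕ) : k) • μ ^ (j + 1) := by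
      rw [Nat.cast_succ, add_smul, one_smul, add_comm]
    rw [h1]
    abel

/-- the integration operator -/
noncomputable def tee (k : Type u) [Field k] [Algebra k R] (ι μ : R) (n : ℕ) : R :=
  ∑ j ∈ Finset.range n, ((-1 : k) ^ j * ((Nat.factorial (j + 1) : ℕ) : k)⁻¹) •
    (μ ^ (j + 1) * ι ^ j)

lemma iota_tee {ι μ : R} (h : ι * μ = 1 + μ * ι) (n : ℕ)
    (hn : ∀ i, 1 ≤ i → i ≤ n → ((i : ℕ) : k) ≠ 0) :
    ι * tee k ι μ n = 1 - ((-1 : k) ^ n * ((Nat.factorial n : ℕ) : k)⁻¹) • (μ ^ n * ι ^ n) := by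
  induction n with
  | zero => simp [tee]
  | succ n ih =>
    have hn1 : ((n + 1 : ℕ) : k) ≠ 0 := hn (n + 1) (by omega) le_rfl
    rw [tee, Finset.sum_range_succ, ← tee, mul_add, ih fun i h1 h2 => hn i h1 (by omega),
      mul_smul_comm, ← mul_assoc, weyl_pow (k := k) h n, add_mul, mul_assoc, ← pow_succ',
      smul_mul_assoc, smul_add, smul_smul]
    have h1 : (-1 : k) ^ n * ((Nat.factorial (n + 1) : ℕ) : k)⁻¹ * ((n + 1 : ℕ) : k) =
        (-1 : k) ^ n * ((Nat.factorial n : ℕ) : k)⁻¹ := by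
      rw [Nat.factorial_succ, Nat.cast_mul, mul_inv, mul_assoc, mul_assoc, mul_comm _⁻¹,
        mul_assoc ((Nat.factorial n : k)⁻¹), mul_inv_cancel₀ hn1, mul_one]
    have h2 : (-1 : k) ^ (n + 1) * ((Nat.factorial (n + 1) : ℕ) : k)⁻¹ =
        -((-1 : k) ^ n * ((Nat.factorial (n + 1) : ℕ) : k)⁻¹) := by
      rw [pow_succ]
      ring
    rw [h1, h2, neg_smul]
    abel

end Weyl

end Pool.Agent.H96BD
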