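import Pool.Agent.Helper96.BD.Sym

/-!
The identities between the two Koszul maps.
-/

universe u v

namespace Pool.Agent.H96BD

open Fin

variable {k : Type u} [Field k] {V : Type u} [AddCommGroup V] [Module k V]

lemma removeNth_succ_cons {α : Type*} {n : ℕ} (i : Fin (n + 1)) (a : α) (v : Fin (n + 1) → α) :
    i.succ.removeNth (cons a v : Fin (n + 2) → α) = (cons a (i.removeNth v) : Fin (n + 1) → α) := by
  funext l
  refine Fin.cases ?_ (fun l => ?_) l
  · simp [Fin.removeNth]
  · simp [Fin.removeNth]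

lemma removeNth_zero_cons {α : Type*} {n : ℕ} (a : α) (v : Fin n → α) :
    (0 : Fin (n + 1)).removeNth (cons a v : Fin (n + 1) → α) = v := by
  funext l
  simp [Fin.removeNth]

lemma form_ext {j m : ℕ} {F G : Frm k V j m}
    (h : ∀ v w, (F v).1 w = (G v).1 w) : F = G := by
  ext v w
  exact h v w

lemma sgn_cons_removeNth {j m : ℕ} (F : Frm k V (j + 1) m) (i : Fin (j + 1))
    (v : Fin (j + 1) → V) (w : Fin m → V) :
    (-1) ^ (i : ℕ) * (F (cons (v i) (i.removeNth v))).1 w = (F v).1 w := by
  have h := AlternatingMap.neg_one_pow_smul_map_insertNth (R := k) (M := V)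
    (N := SF k V m) F i (v i) (i.removeNth v)
  rw [insertNth_self_removeNth] at h
  have h2 : F (cons (v i) (i.removeNth v)) = (-1 : ℤ) ^ (i : ℕ) • F v := h.symm
  rw [h2]
  rcases Nat.even_or_odd (i : ℕ) with h | h
  · simp [h.neg_one_pow]
  · simp [h.neg_one_pow]

/-- `κ d + d κ` on forms with alternating and symmetric arguments. -/
lemma kos (j m : ℕ) (F : Frm k V (j + 1) (m + 1)) :
    kk (j + 1) m (dd (j + 1) m F) + dd j (m + 1) (kk j (m + 1) F) =
      ((j + 1 + (m + 1) : ℕ) : k) • F := by
  apply form_ext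
  intro v w
  have h1 : (kk (j + 1) m (dd (j + 1) m F) v).1 w =
      ((m + 1 : ℕ) : k) * (F v).1 w + ∑ l : Fin (m + 1), ∑ i : Fin (j + 1),
        (-1) ^ ((i : ℕ) + 1) * (F (cons (w l) (i.removeNth v))).1 (cons (v i) (l.removeNth w)) := by
    rw [kk_apply]
    have : ∀ l : Fin (m + 1), (dd (j + 1) m F (cons (w l) v)).1 (l.removeNth w) =
        (F v).1 w + ∑ i : Fin (j + 1), (-1) ^ ((i : ℕ) + 1) *
          (F (cons (w l) (i.removeNth v))).1 (cons (v i) (l.removeNth w)) := by
      intro l
      rw [dd_apply, Fin.sum_univ_succ]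
      congr 1
      · rw [removeNth_zero_cons]
        simp only [val_zero, pow_zero, one_mul, cons_zero]
        exact symForm_cons_removeNth (F v) l w
      · refine Finset.sum_congr rfl fun i _ => ?_
        rw [removeNth_succ_cons, cons_succ, val_succ]
    rw [Finset.sum_congr rfl fun l _ => this l, Finset.sum_add_distrib]
    simp
  have h2 : (dd j (m + 1) (kk j (m + 1) F) v).1 w =
      ((j + 1 : ℕ) : k) * (F v).1 w + ∑ l : Fin (m + 1), ∑ i : Fin (j + 1),
        (-1) ^ (i : ℕ) * (F (cons (w l) (i.removeNth v))).1 (cons (v i) (l.removeNth w)) := by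
    rw [dd_apply]
    have : ∀ i : Fin (j + 1), (-1) ^ (i : ℕ) *
        (kk j (m + 1) F (i.removeNth v)).1 (cons (v i) w) =
        (F v).1 w + ∑ l : Fin (m + 1), (-1) ^ (i : ℕ) *
          (F (cons (w l) (i.removeNth v))).1 (cons (v i) (l.removeNth w)) := by
      intro i
      rw [kk_apply, Fin.sum_univ_succ, mul_add, Finset.mul_sum]
      congr 1
      · rw [removeNth_zero_cons, cons_zero, sgn_cons_removeNth]
      · refine Finset.sum_congr rfl fun l _ => ?_
        rw [removeNth_succ_cons, cons_succ]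
    rw [Finset.sum_congr rfl fun l _ => this l, Finset.sum_add_distrib, Finset.sum_comm]
    simp
  change (kk (j + 1) m (dd (j + 1) m F) v).1 w + (dd j (m + 1) (kk j (m + 1) F) v).1 w =
    ((j + 1 + (m + 1) : ℕ) : k) * (F v).1 w
  rw [h1, h2]
  have h3 : ∑ l : Fin (m + 1), ∑ i : Fin (j + 1),
      (-1) ^ ((i : ℕ) + 1) * (F (cons (w l) (i.removeNth v))).1 (cons (v i) (l.removeNth w)) =
      - ∑ l : Fin (m + 1), ∑ i : Fin (j + 1),
        (-1) ^ (i : ℕ) * (F (cons (w l) (i.removeNth v))).1 (cons (v i) (l.removeNth w)) := by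
    rw [← Finset.sum_neg_distrib]
    refine Finset.sum_congr rfl fun l _ => ?_
    rw [← Finset.sum_neg_distrib]
    refine Finset.sum_congr rfl fun i _ => ?_
    ring
  rw [h3]
  push_cast
  ring

/-- `κ d` on symmetric forms. -/
lemma kos_zero (m : ℕ) (F : Frm k V 0 (m + 1)) :
    kk 0 m (dd 0 m F) = ((m + 1 : ℕ) : k) • F := by
  apply form_ext
  intro v w
  change (kk 0 m (dd 0 m F) v).1 w = ((m + 1 : ℕ) : k) * (F v).1 w
  rw [kk_apply]
  have : ∀ l : Fin (m + 1), (dd 0 m F (cons (w l) v)).1 (l.removeNth w) = (F v).1 w := by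
    intro l
    rw [dd_apply, Fin.sum_univ_succ]
    simp only [Finset.univ_eq_empty, Finset.sum_empty, add_zero]
    rw [removeNth_zero_cons]
    simp only [val_zero, pow_zero, one_mul, cons_zero]
    exact symForm_cons_removeNth (F v) l w
  rw [Finset.sum_congr rfl fun l _ => this l]
  simp

/-- `d κ` on alternating forms. -/
lemma kos_last (j : ℕ) (F : Frm k V (j + 1) 0) :
    dd j 0 (kk j 0 F) = ((j + 1 : ℕ) : k) • F := by
  apply form_ext
  intro v w
  change (dd j 0 (kk j 0 F) v).1 w = ((j + 1 : ℕ) : k) * (F v).1 w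
  rw [dd_apply]
  have : ∀ i : Fin (j + 1), (-1) ^ (i : ℕ) *
      (kk j 0 F (i.removeNth v)).1 (cons (v i) w) = (F v).1 w := by
    intro i
    rw [kk_apply, Fin.sum_univ_succ]
    simp only [Finset.univ_eq_empty, Finset.sum_empty, add_zero]
    rw [removeNth_zero_cons, cons_zero, sgn_cons_removeNth]
  rw [Finset.sum_congr rfl fun l _ => this l]
  simp

/-- `κ κ = 0`. -/
lemma kk_kk (j m : ℕ) (F : Frm k V (j + 2) m) : kk j (m + 1) (kk (j + 1) m F) = 0 := by
  apply form_ext
  intro v w
  change (kk j (m + 1) (kk (j + 1) m F) v).1 w = 0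
  rw [kk_apply]
  have h1 : ∀ l : Fin (m + 2), (kk (j + 1) m F (cons (w l) v)).1 (l.removeNth w) =
      ∑ i : Fin (m + 1), (F (cons (w (l.succAbove i)) (cons (w l) v))).1
        (i.removeNth (l.removeNth w)) := by
    intro l
    rw [kk_apply]
    rfl
  rw [Finset.sum_congr rfl fun l _ => h1 l,
    ← Fintype.sum_prod_type' (fun (l : Fin (m + 2)) (i : Fin (m + 1)) =>
      (F (cons (w (l.succAbove i)) (cons (w l) v))).1 (i.removeNth (l.removeNth w)))]
  refine Finset.sum_involution (fun q _ => (q.1.succAbove q.2, q.2.predAbove q.1)) ?_ ?_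
    (fun _ _ => Finset.mem_univ _) ?_
  · rintro ⟨l, i⟩ -
    simp only
    rw [succAbove_succAbove_predAbove, ← removeNth_removeNth_eq_swap]
    have h2 : F (cons (w l) (cons (w (l.succAbove i)) v)) =
        - F (cons (w (l.succAbove i)) (cons (w l) v)) := by
      have h3 := AlternatingMap.map_swap (R := k) (M := V) (N' := SF k V m) F
        (cons (w (l.succAbove i)) (cons (w l) v) : Fin (j + 2) → V)
        (i := 0) (j := 1) (by simp)
      rw [← h3]
      congr 1
      funext t
      refine Fin.cases ?_ (fun t => ?_) t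
      · simp
      · refine Fin.cases ?_ (fun t => ?_) t
        · simp
        · have h4 : Equiv.swap (0 : Fin (j + 2)) 1 t.succ.succ = t.succ.succ :=
            Equiv.swap_apply_of_ne_of_ne (by simp) (by
              intro h
              have := congrArg Fin.val h
              simp at this)
          simp [h4]
    rw [h2]
    change _ + (-(F (cons (w (l.succAbove i)) (cons (w l) v))).1) _ = 0
    rw [neg_apply, add_neg_cancel]
  · rintro ⟨l, i⟩ - _ h
    have := congrArg Prod.fst h
    exact succAbove_ne l i this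
  · rintro ⟨l, i⟩ -
    simp only
    rw [succAbove_succAbove_predAbove, predAbove_predAbove_succAbove]

end Pool.Agent.H96BD
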