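import Mathlib

/-!
The uniform version of the numerical condition.
-/

namespace Pool.Agent.H96BD

/-- `C(n, j) x^j ≤ (1 + x)^n`. -/
lemma choose_mul_pow_le (n j : ℕ) (x : ℝ) (hx : 0 ≤ x) : (n.choose j : ℝ) * x ^ j ≤ (1 + x) ^ n := by
  rcases Nat.lt_or_ge n j with h | h
  · rw [Nat.choose_eq_zero_of_lt h]
    simp
    positivity
  · rw [add_comm, add_pow]
    have h1 := Finset.single_le_sum (s := Finset.range (n + 1))
      (f := fun m => x ^ m * 1 ^ (n - m) * (n.choose m : ℝ)) (fun i _ => by positivity)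
      (Finset.mem_range.2 (Nat.lt_succ_of_le h))
    simp only [one_pow, mul_one] at h1 ⊢
    linarith [mul_comm (n.choose j : ℝ) (x ^ j)]

/-- For `N ≤ δ p` the condition holds with a radius close to one. -/
theorem exists_delta (R : ℝ) (hR : 1 < R) :
    ∃ δ : ℝ, 0 < δ ∧ ∀ N p : ℕ, 0 < p → (N : ℝ) ≤ δ * p →
      N < p ∧ (2 : ℝ) ^ (N - 1) * ((p + N - 2).choose (N - 1) : ℝ) ≤ R ^ (p - N) := by
  set L : ℝ := Real.log R with hL
  have hLpos : 0 < L := Real.log_pos hR
  set x : ℝ := min (L / 8) 1 with hx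
  have hx0 : 0 < x := lt_min (by linarith) one_pos
  have hx1 : x ≤ 1 := min_le_right _ _
  have hx8 : x ≤ L / 8 := min_le_left _ _
  have hlog : 0 < Real.log (2 / x) := Real.log_pos (by
    rw [lt_div_iff₀ hx0]
    linarith)
  refine ⟨min (1 / 2) (L / (4 * Real.log (2 / x))), lt_min (by norm_num) (by positivity),
    fun N p hp hN => ?_⟩
  have hp0 : (0 : ℝ) < p := by exact_mod_cast hp
  have h1 : (N : ℝ) ≤ p / 2 := by
    calc (N : ℝ) ≤ min (1 / 2) (L / (4 * Real.log (2 / x))) * p := hN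
      _ ≤ 1 / 2 * p := mul_le_mul_of_nonneg_right (min_le_left _ _) hp0.le
      _ = p / 2 := by ring
  have h2 : (N : ℝ) * Real.log (2 / x) ≤ p * L / 4 := by
    have h3 : (N : ℝ) ≤ L / (4 * Real.log (2 / x)) * p :=
      hN.trans (mul_le_mul_of_nonneg_right (min_le_right _ _) hp0.le)
    calc (N : ℝ) * Real.log (2 / x) ≤ L / (4 * Real.log (2 / x)) * p * Real.log (2 / x) :=
          mul_le_mul_of_nonneg_right h3 hlog.le
      _ = p * L / 4 := by
          field_simp
  have h3 : N < p := by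
    have : (N : ℝ) < p := by linarith
    exact_mod_cast this
  refine ⟨h3, ?_⟩
  -- `2^(N-1) C ≤ (2/x)^(N-1) (1+x)^(p+N-2) ≤ (2/x)^N (1+x)^(2p)`
  have h4 : (2 : ℝ) ^ (N - 1) * ((p + N - 2).choose (N - 1) : ℝ) ≤
      (2 / x) ^ N * (1 + x) ^ (2 * p) := by
    have h5 := choose_mul_pow_le (p + N - 2) (N - 1) x hx0.le
    have h6 : (2 : ℝ) ^ (N - 1) * ((p + N - 2).choose (N - 1) : ℝ) =
        (2 / x) ^ (N - 1) * (((p + N - 2).choose (N - 1) : ℝ) * x ^ (N - 1)) := by
      rw [div_pow]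
      field_simp
    rw [h6]
    have h7 : (1 : ℝ) ≤ 2 / x := by
      rw [le_div_iff₀ hx0]
      linarith
    exact mul_le_mul (pow_le_pow_right₀ h7 (Nat.sub_le _ _))
      (h5.trans (pow_le_pow_right₀ (by linarith) (by omega))) (by positivity) (by positivity)
  refine h4.trans ?_
  have h8 : (2 / x) ^ N = Real.exp (N * Real.log (2 / x)) := by
    rw [Real.exp_nat_mul, Real.exp_log (by positivity)]
  have h9 : (1 + x) ^ (2 * p) ≤ Real.exp (p * L / 4) := by
    calc (1 + x) ^ (2 * p) ≤ (Real.exp x) ^ (2 * p) := by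
          apply pow_le_pow_left₀ (by linarith)
          rw [add_comm]
          exact Real.add_one_le_exp x
      _ = Real.exp ((2 * p : ℕ) * x) := by rw [Real.exp_nat_mul]
      _ ≤ Real.exp (p * L / 4) := by
          apply Real.exp_le_exp.2
          push_cast
          nlinarith
  have h10 : R ^ (p - N) = Real.exp ((p - N : ℕ) * L) := by
    rw [Real.exp_nat_mul, Real.exp_log (by linarith)]
  rw [h8, h10]
  calc Real.exp (N * Real.log (2 / x)) * (1 + x) ^ (2 * p)
      ≤ Real.exp (p * L / 4) * Real.exp (p * L / 4) :=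
        mul_le_mul (Real.exp_le_exp.2 h2) h9 (by positivity) (by positivity)
    _ = Real.exp (p * L / 2) := by
        rw [← Real.exp_add]
        congr 1
        ring
    _ ≤ Real.exp ((p - N : ℕ) * L) := by
        apply Real.exp_le_exp.2
        rw [Nat.cast_sub h3.le]
        nlinarith

/-- the crude form of the condition -/
lemma two_pow_choose_le (N p : ℕ) (hN : N < p) :
    (2 : ℝ) ^ (N - 1) * ((p + N - 2).choose (N - 1) : ℝ) ≤ (4 * p) ^ N := by
  have hp : (1 : ℝ) ≤ p := by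
    have : 1 ≤ p := by omega
    exact_mod_cast this
  have h1 : ((p + N - 2).choose (N - 1) : ℝ) ≤ (2 * p) ^ (N - 1) := by
    have h2 : (p + N - 2).choose (N - 1) ≤ (2 * p) ^ (N - 1) :=
      (Nat.choose_le_pow _ _).trans (Nat.pow_le_pow_left (by omega) _)
    exact_mod_cast h2
  calc (2 : ℝ) ^ (N - 1) * ((p + N - 2).choose (N - 1) : ℝ)
      ≤ 2 ^ (N - 1) * (2 * p) ^ (N - 1) := mul_le_mul_of_nonneg_left h1 (by positivity)
    _ = (4 * p) ^ (N - 1) := by
        rw [← mul_pow]
        congr 1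
        ring
    _ ≤ (4 * p) ^ N := pow_le_pow_right₀ (by linarith) (Nat.sub_le _ _)

/-- an explicit radius -/
lemma radius_exp (N p : ℕ) (hN : N < p) :
    1 ≤ Real.exp (N * Real.log (4 * p) / (p - N)) ∧
      (2 : ℝ) ^ (N - 1) * ((p + N - 2).choose (N - 1) : ℝ) ≤
        Real.exp (N * Real.log (4 * p) / (p - N)) ^ (p - N) := by
  have hp : (1 : ℝ) ≤ p := by
    have : 1 ≤ p := by omega
    exact_mod_cast this
  have hpN : (0 : ℝ) < p - N := by
    have : (N : ℝ) < p := by exact_mod_cast hN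
    linarith
  have hlog : 0 ≤ Real.log (4 * p) := Real.log_nonneg (by linarith)
  refine ⟨Real.one_le_exp (by positivity), (two_pow_choose_le N p hN).trans (le_of_eq ?_)⟩
  rw [← Real.exp_nat_mul, Nat.cast_sub hN.le, mul_div_cancel₀ _ hpN.ne', Real.exp_nat_mul,
    Real.exp_log (by linarith)]

/-- an explicit range in which the error is less than one -/
lemma radius_one (N p : ℕ) (hN0 : 0 < N)
    (hN : (N : ℝ) + 4 * N ^ 2 * Real.log (4 * p) ≤ p) :
    N < p ∧ (2 : ℝ) ^ (N - 1) * ((p + N - 2).choose (N - 1) : ℝ) ≤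
        (1 + 1 / (3 * N) : ℝ) ^ (p - N) ∧
      (N : ℝ) * ((1 + 1 / (3 * N)) - (1 + 1 / (3 * N) : ℝ)⁻¹) < 1 := by
  have hN1 : (1 : ℝ) ≤ N := by exact_mod_cast hN0
  have hp : (1 : ℝ) ≤ p := by
    by_contra hcon
    have h0 : p = 0 := by
      by_contra h
      have : 1 ≤ p := by omega
      exact hcon (by exact_mod_cast this)
    subst h0
    simp at hN
    linarith
  have hlog : 0 < Real.log (4 * p) := Real.log_pos (by linarith)
  have h1 : (N : ℝ) < p := by
    have : 0 < 4 * (N : ℝ) ^ 2 * Real.log (4 * p) := by positivity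
    linarith
  have h2 : N < p := by exact_mod_cast h1
  have hR : (1 : ℝ) < 1 + 1 / (3 * N) := by
    have : (0 : ℝ) < 1 / (3 * N) := by positivity
    linarith
  refine ⟨h2, (two_pow_choose_le N p h2).trans ?_, ?_⟩
  · have h3 : 1 / (4 * N : ℝ) ≤ Real.log (1 + 1 / (3 * N)) := by
      have h4 := Real.one_sub_inv_le_log_of_pos (show (0 : ℝ) < 1 + 1 / (3 * N) by linarith)
      refine le_trans ?_ h4
      have h5 : 1 - (1 + 1 / (3 * N) : ℝ)⁻¹ = 1 / (3 * N + 1) := by
        field_simp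
        ring
      rw [h5]
      apply one_div_le_one_div_of_le (by positivity)
      linarith
    have h6 : (4 * p : ℝ) ^ N = Real.exp (N * Real.log (4 * p)) := by
      rw [Real.exp_nat_mul, Real.exp_log (by linarith)]
    have h7 : (1 + 1 / (3 * N) : ℝ) ^ (p - N) =
        Real.exp ((p - N : ℕ) * Real.log (1 + 1 / (3 * N))) := by
      rw [Real.exp_nat_mul, Real.exp_log (by linarith)]
    rw [h6, h7]
    apply Real.exp_le_exp.2
    rw [Nat.cast_sub h2.le]
    calc (N : ℝ) * Real.log (4 * p) = (4 * N ^ 2 * Real.log (4 * p)) * (1 / (4 * N)) := by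
          field_simp
      _ ≤ ((p : ℝ) - N) * (1 / (4 * N)) := by
          apply mul_le_mul_of_nonneg_right _ (by positivity)
          linarith
      _ ≤ ((p : ℝ) - N) * Real.log (1 + 1 / (3 * N)) :=
          mul_le_mul_of_nonneg_left h3 (by linarith)
  · have h5 : (N : ℝ) * ((1 + 1 / (3 * N)) - (1 + 1 / (3 * N) : ℝ)⁻¹) =
        (6 * N + 1) / (3 * (3 * N + 1)) := by
      field_simp
      ring
    rw [h5, div_lt_one (by positivity)]
    linarith

end Pool.Agent.H96BD
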