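import Pool.Agent.Helper96.BD.Top
import Pool.Agent.Helper96.BD.Unif

/-!
The theorems in the language of the statement: species `Spc`, characteristic `p`.
-/

universe u v

namespace Pool.Agent.H96BD

open Pool.Agent.H80Green

lemma natCast_ne_zero (p : ℕ) (k : Type u) [Field k] [CharP k p] :
    ∀ i, 1 ≤ i → i < p → ((i : ℕ) : k) ≠ 0 := by
  intro i h1 h2 h3
  rw [CharP.cast_eq_zero_iff k p] at h3
  exact absurd (Nat.le_of_dvd (by omega) h3) (by omega)

/-- The roots of a module of dimension less than `p`. -/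
theorem spc_roots {p : ℕ} {k : Type u} [Field k] [CharP k p] {G : Type v} [Group G]
    (s : Spc k G) (hs : s.DimBounded) (X : Md k G) (hX : X.dim < p) :
    ∃ x : Fin X.dim → ℂ, (∀ a, x a ≠ 0) ∧
      (∀ z : ℂ, ∑ j ∈ Finset.range (X.dim + 1), s.val (X.ext j) * z ^ j =
        ∏ a, (1 + x a * z)) ∧
      s.val X = ∑ a, x a ∧ s.val X.dual = ∑ a, (x a)⁻¹ ∧
      ∀ R : ℝ, 1 ≤ R →
        (2 : ℝ) ^ (X.dim - 1) * ((p + X.dim - 2).choose (X.dim - 1) : ℝ) ≤ R ^ (p - X.dim) →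
        (∀ a, R⁻¹ ≤ ‖x a‖ ∧ ‖x a‖ ≤ R) ∧
        ‖s.val X.dual - (starRingEnd ℂ) (s.val X)‖ ≤ X.dim * (R - R⁻¹) := by
  obtain ⟨x, h1, h2, h3, h4, h5⟩ := roots s.toSpecies (s.toSpecies_dimBounded hs) X
    (natCast_ne_zero p k) hX
  refine ⟨x, h1, fun z => ?_, h3, h4, h5⟩
  have h6 := s.toSpecies.eser_eq_coe X
  rw [h2] at h6
  have h7 : ((∏ a, (1 + Polynomial.C (x a) * Polynomial.X) : Polynomial ℂ) : PowerSeries ℂ) =
      ∏ a, (1 + PowerSeries.C (x a) * PowerSeries.X) := by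
    rw [coe_prod_poly]
    refine Finset.prod_congr rfl fun a _ => ?_
    simp only [Polynomial.coe_add, Polynomial.coe_one, Polynomial.coe_mul, Polynomial.coe_C,
      Polynomial.coe_X]
  rw [← h7, Polynomial.coe_inj] at h6
  have h8 := congrArg (Polynomial.eval z) h6
  rw [Polynomial.eval_prod, Polynomial.eval_finsetSum] at h8
  simp only [Polynomial.eval_add, Polynomial.eval_one, Polynomial.eval_mul, Polynomial.eval_C,
    Polynomial.eval_X, Polynomial.eval_pow] at h8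
  exact h8.symm

/-- The difference for an arbitrary admissible radius. -/
theorem spc_radius {p : ℕ} {k : Type u} [Field k] [CharP k p] {G : Type v} [Group G]
    (s : Spc k G) (hs : s.DimBounded) (X : Md k G) (hX : X.dim < p) (R : ℝ) (hR : 1 ≤ R)
    (hRp : (2 : ℝ) ^ (X.dim - 1) * ((p + X.dim - 2).choose (X.dim - 1) : ℝ) ≤
      R ^ (p - X.dim)) :
    ‖s.val X.dual - (starRingEnd ℂ) (s.val X)‖ ≤ X.dim * (R - R⁻¹) := by
  obtain ⟨x, -, -, -, -, h⟩ := spc_roots s hs X hX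
  exact (h R hR hRp).2

/-- The explicit bound. -/
theorem spc_explicit {p : ℕ} {k : Type u} [Field k] [CharP k p] {G : Type v} [Group G]
    (s : Spc k G) (hs : s.DimBounded) (X : Md k G) (hX : X.dim < p) :
    ‖s.val X.dual - (starRingEnd ℂ) (s.val X)‖ ≤
      2 * X.dim * Real.sinh (X.dim * Real.log (4 * p) / (p - X.dim)) := by
  obtain ⟨h1, h2⟩ := radius_exp X.dim p hX
  refine (spc_radius s hs X hX _ h1 h2).trans (le_of_eq ?_)
  rw [Real.sinh_eq, Real.exp_neg]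
  ring

/-- The uniform bound in a linear range. -/
theorem spc_uniform (ε : ℝ) (hε : 0 < ε) : ∃ δ : ℝ, 0 < δ ∧
    ∀ (p : ℕ) (k : Type u) [Field k] [CharP k p] (G : Type v) [Group G],
      0 < p → ∀ s : Spc k G, s.DimBounded → ∀ X : Md k G, (X.dim : ℝ) ≤ δ * p →
        ‖s.val X.dual - (starRingEnd ℂ) (s.val X)‖ ≤ ε * X.dim := by
  obtain ⟨δ, hδ, h⟩ := exists_delta (1 + ε / 2) (by linarith)
  refine ⟨δ, hδ, ?_⟩
  intro p k _ _ G _ hp s hs X hX
  obtain ⟨h1, h2⟩ := h X.dim p hp hX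
  refine (spc_radius s hs X h1 (1 + ε / 2) (by linarith) h2).trans ?_
  rw [mul_comm]
  refine mul_le_mul_of_nonneg_right ?_ (Nat.cast_nonneg _)
  have h3 : (1 + ε / 2) - (1 + ε / 2)⁻¹ = (ε / 2) * (1 + (1 + ε / 2)⁻¹) := by
    field_simp
    ring
  have h4 : (1 + ε / 2)⁻¹ ≤ 1 := inv_le_one_of_one_le₀ (by linarith)
  rw [h3]
  nlinarith

/-- Exact self-conjugacy for values in a discrete ring. -/
theorem spc_discrete {p : ℕ} {k : Type u} [Field k] [CharP k p] {G : Type v} [Group G]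
    (s : Spc k G) (hs : s.DimBounded) (D : Subring ℂ) (hD : ∀ d ∈ D, d ≠ 0 → 1 ≤ ‖d‖)
    (hDc : ∀ d ∈ D, (starRingEnd ℂ) d ∈ D) (X : Md k G)
    (hX : (X.dim : ℝ) + 4 * (X.dim : ℝ) ^ 2 * Real.log (4 * p) ≤ p)
    (h1 : s.val X ∈ D) (h2 : s.val X.dual ∈ D) :
    s.val X.dual = (starRingEnd ℂ) (s.val X) := by
  rcases Nat.eq_zero_or_pos X.dim with h0 | h0
  · have h3 : s.val X = 0 := s.toSpecies.val_of_dim_zero X h0
    have h4 : s.val X.dual = 0 :=
      s.toSpecies.val_of_dim_zero X.dual (by rw [Md.dim_dual, h0])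
    rw [h3, h4, map_zero]
  · obtain ⟨h3, h4, h5⟩ := radius_one X.dim p h0 hX
    have h6 : (1 : ℝ) ≤ 1 + 1 / (3 * X.dim) := by
      have : (0 : ℝ) ≤ 1 / (3 * X.dim) := by positivity
      linarith
    have h7 := (spc_radius s hs X h3 _ h6 h4).trans_lt h5
    by_contra hne
    have h8 := hD _ (D.sub_mem h2 (hDc _ h1)) (sub_ne_zero.2 hne)
    linarith

end Pool.Agent.H96BD
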