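import Pool.Agent.Helper96.BD.Kos

/-!
The `kG`-modules of symmetric forms and of alternating maps with values in them.
-/

universe u v

open scoped TensorProduct

namespace Pool.Agent.H96BD

open Fin Pool.Agent.H80Green

variable {k : Type u} [Field k] {G : Type v} [Group G]

noncomputable instance {V : Type u} [AddCommGroup V] [Module k V] [Module.Finite k V] (m : ℕ) :
    Module.Finite k (SF k V m) :=
  inferInstanceAs (Module.Finite k (symForm k V m))

instance {V : Type u} [AddCommGroup V] [Module k V] [Module.Finite k V] (j m : ℕ) :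
    Module.Finite k (Frm k V j m) :=
  Module.Finite.equiv
    (exteriorPower.alternatingMapLinearEquiv (R := k) (M := V) (N := SF k V m) (n := j)).symm

/-- action of an endomorphism on symmetric forms -/
noncomputable def symMap {V : Type u} [AddCommGroup V] [Module k V] (m : ℕ) (a : V →ₗ[k] V) :
    SF k V m →ₗ[k] SF k V m where
  toFun f := SF.mk (f.1.compLinearMap fun _ => a) (by
    intro σ w
    simp only [MultilinearMap.compLinearMap_apply]
    exact f.2 σ fun i => a (w i))
  map_add' f g := by
    ext w
    simp
  map_smul' c f := by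
    ext w
    simp

@[simp] lemma symMap_apply {V : Type u} [AddCommGroup V] [Module k V] {m : ℕ} (a : V →ₗ[k] V)
    (f : SF k V m) (w : Fin m → V) : (symMap m a f).1 w = f.1 fun i => a (w i) := rfl

/-- The module of symmetric `m`-linear forms on `X`. -/
noncomputable abbrev Hm (X : Md k G) (m : ℕ) : Md k G where
  carrier := SF k X.carrier m
  rep :=
    { toFun := fun g => symMap m (X.rep g⁻¹)
      map_one' := by
        ext f w
        simp
      map_mul' := fun g h => by
        ext f w
        simp }

lemma Hm_rep (X : Md k G) (m : ℕ) (g : G) (f : SF k X.carrier m) :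
    (Hm X m).rep g f = symMap m (X.rep g⁻¹) f := rfl

/-- action of an endomorphism on forms -/
noncomputable def frmMap {V : Type u} [AddCommGroup V] [Module k V] (j m : ℕ) (a : V →ₗ[k] V) :
    Frm k V j m →ₗ[k] Frm k V j m where
  toFun F := (symMap m a).compAlternatingMap (F.compLinearMap a)
  map_add' F F' := by
    ext v w
    simp
  map_smul' c F := by
    ext v w
    simp

@[simp] lemma frmMap_apply {V : Type u} [AddCommGroup V] [Module k V] {j m : ℕ} (a : V →ₗ[k] V)
    (F : Frm k V j m) (v : Fin j → V) (w : Fin m → V) :
    (frmMap j m a F v).1 w = (F fun i => a (v i)).1 fun i => a (w i) := rfl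

lemma frmMap_eq {V : Type u} [AddCommGroup V] [Module k V] {j m : ℕ} (a : V →ₗ[k] V)
    (F : Frm k V j m) (v : Fin j → V) :
    frmMap j m a F v = symMap m a (F fun i => a (v i)) := rfl

/-- The module of alternating `j`-linear maps on `X` with values in the symmetric `m`-forms. -/
noncomputable abbrev Fm (X : Md k G) (j m : ℕ) : Md k G where
  carrier := Frm k X.carrier j m
  rep :=
    { toFun := fun g => frmMap j m (X.rep g⁻¹)
      map_one' := by
        refine LinearMap.ext fun F => form_ext fun v w => ?_
        simp
      map_mul' := fun g h => by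
        refine LinearMap.ext fun F => form_ext fun v w => ?_
        simp }

lemma Fm_rep (X : Md k G) (j m : ℕ) (g : G) (F : Frm k X.carrier j m) :
    (Fm X j m).rep g F = frmMap j m (X.rep g⁻¹) F := rfl

lemma dd_equiv {V : Type u} [AddCommGroup V] [Module k V] (j m : ℕ) (a : V →ₗ[k] V)
    (F : Frm k V j (m + 1)) : dd j m (frmMap j (m + 1) a F) = frmMap (j + 1) m a (dd j m F) := by
  apply form_ext
  intro v w
  rw [dd_apply, frmMap_apply, dd_apply]
  refine Finset.sum_congr rfl fun i _ => ?_
  rw [frmMap_apply]
  congr 2
  · funext l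
    refine Fin.cases ?_ (fun l => ?_) l <;> simp

lemma kk_equiv {V : Type u} [AddCommGroup V] [Module k V] (j m : ℕ) (a : V →ₗ[k] V)
    (F : Frm k V (j + 1) m) : kk j m (frmMap (j + 1) m a F) = frmMap j (m + 1) a (kk j m F) := by
  apply form_ext
  intro v w
  rw [kk_apply, frmMap_apply, kk_apply]
  refine Finset.sum_congr rfl fun i _ => ?_
  rw [frmMap_apply]
  congr 3
  · funext l
    refine Fin.cases ?_ (fun l => ?_) l <;> simp

end Pool.Agent.H96BD
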