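import Pool.Agent.Helper96.BD.Reg

/-!
Exact self-conjugacy for modules on which an element of order `p` acts with a single Jordan
block, for species supported at this element.
-/

universe u v w

namespace Pool.Agent.H96BD

open Fin Pool.Agent.H80Green

/-- `B` is projective on restriction to the cyclic group generated by `g`, where `g ^ p = 1`:
Higman's criterion. -/
def ProjAt {k : Type u} [Field k] {G : Type v} [Group G] (p : ℕ) (B : Md k G) (g : G) : Prop :=
  ∃ φ : Module.End k B.carrier,
    ∑ i ∈ Finset.range p, B.rep (g ^ i) * φ * B.rep (g⁻¹ ^ i) = 1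

/-- `X` is generated by one vector as a module for the cyclic group generated by `g`. -/
def CyclicAt {k : Type u} [Field k] {G : Type v} [Group G] (X : Md k G) (g : G) : Prop :=
  ∃ x : X.carrier, Submodule.span k (Set.range fun i : ℕ => X.rep (g ^ i) x) = ⊤

section Perm

variable (k : Type u) [Field k] (p : ℕ)

/-- the shift on the functions on `ZMod p` -/
noncomputable def shf (c : ZMod p) : Module.End k (ZMod p → k) :=
  LinearMap.pi fun z => LinearMap.proj (z - c)

variable {k p}

lemma shf_apply (c : ZMod p) (f : ZMod p → k) (z : ZMod p) : shf k p c f z = f (z - c) := rfl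

lemma shf_mul (c c' : ZMod p) : shf k p c * shf k p c' = shf k p (c + c') := by
  refine LinearMap.ext fun f => funext fun z => ?_
  change f (z - c - c') = f (z - (c + c'))
  rw [sub_sub]

lemma shf_zero : shf k p 0 = 1 := by
  refine LinearMap.ext fun f => funext fun z => ?_
  change f (z - 0) = f z
  rw [sub_zero]

lemma shf_pow (c : ZMod p) (i : ℕ) : shf k p c ^ i = shf k p (i * c) := by
  induction i with
  | zero => rw [pow_zero, Nat.cast_zero, zero_mul, shf_zero]
  | succ i ih => rw [pow_succ, ih, shf_mul, Nat.cast_succ, add_mul, one_mul]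

/-- evaluation at zero -/
noncomputable def ev0 (k : Type u) [Field k] (p : ℕ) : Module.End k (ZMod p → k) :=
  LinearMap.single k (fun _ : ZMod p => k) 0 ∘ₗ LinearMap.proj 0

lemma ev0_apply (f : ZMod p → k) (z : ZMod p) : ev0 k p f z = if z = 0 then f 0 else 0 := by
  simp [ev0, Pi.single_apply]

lemma cyc_ev0 [NeZero p] : cyc p (shf k p 1) (shf k p (-1)) (ev0 k p) = 1 := by
  refine LinearMap.ext fun f => funext fun z => ?_
  rw [cyc_apply]
  have h1 : ∀ i : ℕ, ((shf k p 1 ^ i) (ev0 k p ((shf k p (-1) ^ i) f)) : ZMod p → k) z =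
      if z = (i : ZMod p) then f z else 0 := by
    intro i
    rw [shf_pow, shf_pow, shf_apply, ev0_apply, shf_apply, mul_one]
    by_cases h : z = (i : ZMod p)
    · rw [if_pos h, if_pos (by rw [h, sub_self])]
      congr 1
      rw [h]
      ring
    · rw [if_neg h, if_neg (fun h2 => h (sub_eq_zero.1 h2))]
  have h2 : (∑ i ∈ Finset.range p, (shf k p 1 ^ i) (ev0 k p ((shf k p (-1) ^ i) f)) :
      ZMod p → k) z = ∑ i ∈ Finset.range p,
        ((shf k p 1 ^ i) (ev0 k p ((shf k p (-1) ^ i) f)) : ZMod p → k) z :=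
    Finset.sum_apply z _ _
  rw [h2, Finset.sum_congr rfl fun i _ => h1 i]
  rw [Finset.sum_eq_single z.val]
  · rw [if_pos (by rw [ZMod.natCast_val, ZMod.cast_id])]
    rfl
  · intro b hb hbz
    rw [if_neg]
    intro h
    apply hbz
    rw [h, ZMod.val_natCast, Nat.mod_eq_of_lt (Finset.mem_range.1 hb)]
  · intro h
    exact absurd (Finset.mem_range.2 (ZMod.val_lt z)) h

end Perm

variable {k : Type u} [Field k] {G : Type v} [Group G]

lemma rep_pow_inv (X : Md k G) (g : G) (i : ℕ) (x : X.carrier) :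
    X.rep (g ^ i) (X.rep (g⁻¹ ^ i) x) = x := by
  have h : X.rep (g ^ i) * X.rep (g⁻¹ ^ i) = 1 := by
    rw [← map_mul, inv_pow, mul_inv_cancel, map_one]
  exact LinearMap.congr_fun h x

/-- the symmetric forms are projective at `g` -/
theorem projAt_Hm {p : ℕ} [hp : Fact p.Prime] [CharP k p] (X : Md k G) (g : G)
    (hg : X.rep (g ^ p) = 1) (hX : CyclicAt X g) (n : ℕ) (hn : p - X.dim < n) (hnp : n < p) : ProjAt p (Hm X n) g := by
  obtain ⟨x, hx⟩ := hX
  have : NeZero p := ⟨hp.out.ne_zero⟩
  -- the surjection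
  let π : (ZMod p → k) →ₗ[k] X.carrier :=
    ∑ c : ZMod p, (LinearMap.proj c : (ZMod p → k) →ₗ[k] k).smulRight (X.rep (g ^ c.val) x)
  have hπ : ∀ f, π f = ∑ c : ZMod p, f c • X.rep (g ^ c.val) x := by
    intro f
    simp [π, LinearMap.sum_apply]
  have hgval : ∀ i : ℕ, X.rep (g ^ ((i : ZMod p)).val) = X.rep (g ^ i) := by
    intro i
    rw [map_pow] at hg
    rw [ZMod.val_natCast, map_pow, map_pow]
    exact (pow_eq_pow_mod i hg).symm
  have hπg : ∀ f, π (shf k p 1 f) = X.rep g (π f) := by
    intro f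
    rw [hπ, hπ, map_sum, ← Equiv.sum_comp (Equiv.addRight (1 : ZMod p))]
    refine Finset.sum_congr rfl fun c _ => ?_
    rw [Equiv.coe_addRight, shf_apply, add_sub_cancel_right, map_smul]
    congr 1
    have h1 : X.rep (g ^ (c + 1).val) = X.rep (g * g ^ c.val) := by
      rw [← pow_succ', ← hgval (c.val + 1), Nat.cast_succ, ZMod.natCast_val, ZMod.cast_id]
    rw [h1, map_mul]
    rfl
  have hπgi : ∀ (i : ℕ) f, π ((shf k p 1 ^ i) f) = X.rep (g ^ i) (π f) := by
    intro i
    induction i with
    | zero =>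
      intro f
      rw [pow_zero, pow_zero, map_one]
      rfl
    | succ i ih =>
      intro f
      rw [pow_succ', Module.End.mul_apply, hπg, ih, pow_succ', map_mul]
      rfl
  have hshf : ∀ (i : ℕ) f, (shf k p 1 ^ i) ((shf k p (-1) ^ i) f) = f := by
    intro i f
    have h1 : shf k p 1 ^ i * shf k p (-1) ^ i = 1 := by
      rw [shf_pow, shf_pow, shf_mul]
      have : (i : ZMod p) * 1 + i * -1 = 0 := by ring
      rw [this, shf_zero]
    exact LinearMap.congr_fun h1 f
  have hπgi' : ∀ (i : ℕ) f, π ((shf k p (-1) ^ i) f) = X.rep (g⁻¹ ^ i) (π f) := by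
    intro i f
    have h1 := hπgi i ((shf k p (-1) ^ i) f)
    rw [hshf] at h1
    rw [h1]
    have h2 : X.rep (g⁻¹ ^ i) * X.rep (g ^ i) = 1 := by
      rw [← map_mul, inv_pow, inv_mul_cancel, map_one]
    exact (LinearMap.congr_fun h2 _).symm
  have hsurj : Function.Surjective π := by
    rw [← LinearMap.range_eq_top, eq_top_iff, ← hx, Submodule.span_le]
    rintro _ ⟨i, rfl⟩
    refine ⟨Pi.single (i : ZMod p) 1, ?_⟩
    rw [hπ, Finset.sum_eq_single (i : ZMod p)]
    · rw [Pi.single_eq_same, one_smul, hgval]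
    · intro b _ hb
      rw [Pi.single_eq_of_ne hb, zero_smul]
    · intro h
      exact absurd (Finset.mem_univ _) h
  have hker : Module.finrank k (LinearMap.ker π) ≤ p - X.dim := by
    have h1 := LinearMap.finrank_range_add_finrank_ker π
    rw [LinearMap.range_eq_top.2 hsurj, finrank_top, Module.finrank_fintype_fun_eq_card,
      ZMod.card] at h1
    have h2 : Module.finrank k X.carrier = X.dim := rfl
    omega
  have hkerstab : ∀ w ∈ LinearMap.ker π, shf k p 1 w ∈ LinearMap.ker π := by
    intro w hw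
    rw [LinearMap.mem_ker] at hw ⊢
    rw [hπg, hw, map_zero]
  obtain ⟨σ0, hσ0⟩ := LinearMap.exists_rightInverse_of_surjective π
    (LinearMap.range_eq_top.2 hsurj)
  have hσ : ∀ y, π (σ0 y) = y := fun y => LinearMap.congr_fun hσ0 y
  have h1 : shf k p 1 * shf k p (-1) = 1 := by
    rw [shf_mul, add_neg_cancel, shf_zero]
  have h2 : shf k p (-1) * shf k p 1 = 1 := by
    rw [shf_mul, neg_add_cancel, shf_zero]
  have h3 : shf k p 1 ^ p = 1 := by
    rw [shf_pow, mul_one, CharP.cast_eq_zero, shf_zero]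
  obtain ⟨φ, hφ1, hφ2⟩ := hig_ann (shf k p 1) (shf k p (-1)) h1 h2 h3 (ev0 k p) cyc_ev0
    (p - X.dim) (LinearMap.ker π) hker hkerstab n hn hnp
  -- pullbacks
  let P : SF k X.carrier n →ₗ[k] TH k (ZMod p → k) :=
    { toFun := fun f => Function.update 0 n (SF.mk (f.1.compLinearMap fun _ => π) (by
        intro τ w
        simp only [MultilinearMap.compLinearMap_apply]
        exact f.2 τ fun i => π (w i)))
      map_add' := fun f f' => by
        refine th_ext fun m w => ?_
        by_cases hm : m = n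
        · subst hm
          simp
        · simp [Function.update_of_ne hm]
      map_smul' := fun c f => by
        refine th_ext fun m w => ?_
        by_cases hm : m = n
        · subst hm
          simp
        · simp [Function.update_of_ne hm] }
  have hP : ∀ (f : SF k X.carrier n) (w : Fin n → (ZMod p → k)),
      (P f n).1 w = f.1 fun i => π (w i) := by
    intro f w
    change ((Function.update (0 : TH k (ZMod p → k)) n _) n).1 w = _
    rw [Function.update_self]
    rfl
  have hPne : ∀ (f : SF k X.carrier n) (m : ℕ), m ≠ n → P f m = 0 := by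
    intro f m hm
    change (Function.update (0 : TH k (ZMod p → k)) n _) m = _
    rw [Function.update_of_ne hm]
    rfl
  let Q : TH k (ZMod p → k) →ₗ[k] SF k X.carrier n :=
    { toFun := fun F => SF.mk ((F n).1.compLinearMap fun _ => σ0) (by
        intro τ w
        simp only [MultilinearMap.compLinearMap_apply]
        exact (F n).2 τ fun i => σ0 (w i))
      map_add' := fun F F' => by
        ext w
        simp
      map_smul' := fun c F => by
        ext w
        simp }
  have hQ : ∀ (F : TH k (ZMod p → k)) (w : Fin n → X.carrier),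
      (Q F).1 w = (F n).1 fun i => σ0 (w i) := fun F w => rfl
  have hPmem : ∀ f, P f ∈ Deg k (ZMod p → k) n ⊓ Ann (LinearMap.ker π) := by
    intro f
    refine ⟨fun m hm => hPne f m hm, fun w hw => ?_⟩
    refine th_ext fun m z => ?_
    rw [iot_val]
    by_cases hm : m + 1 = n
    · subst hm
      have hc : (fun i => π ((cons w z : Fin (m + 1) → (ZMod p → k)) i)) =
          cons (π w) fun i => π (z i) := by
        funext i
        refine Fin.cases ?_ (fun i => ?_) i <;> simp
      rw [hP, hc, LinearMap.mem_ker.1 hw]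
      have := f.1.cons_smul (fun i => π (z i)) (0 : k) 0
      simpa using this
    · rw [hPne f _ hm]
      rfl
  refine ⟨Q ∘ₗ φ ∘ₗ P, ?_⟩
  refine LinearMap.ext fun f => SF.ext fun w => ?_
  rw [LinearMap.sum_apply]
  have hval : (∑ i ∈ Finset.range p, ((Hm X n).rep (g ^ i) * (Q ∘ₗ φ ∘ₗ P) *
      (Hm X n).rep (g⁻¹ ^ i)) f : SF k X.carrier n).1 w =
      ∑ i ∈ Finset.range p, (((Hm X n).rep (g ^ i) * (Q ∘ₗ φ ∘ₗ P) *
        (Hm X n).rep (g⁻¹ ^ i)) f : SF k X.carrier n).1 w := coe_sum _ _ w
  rw [hval]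
  have hterm : ∀ i ∈ Finset.range p, (((Hm X n).rep (g ^ i) * (Q ∘ₗ φ ∘ₗ P) *
        (Hm X n).rep (g⁻¹ ^ i)) f : SF k X.carrier n).1 w =
      (((act (shf k p (-1)) : Module.End k (TH k (ZMod p → k))) ^ i)
        (φ (((act (shf k p 1) : Module.End k (TH k (ZMod p → k))) ^ i) (P f))) n).1
          fun j => σ0 (w j) := by
    intro i _
    have h4 : P (symMap n (X.rep (g⁻¹ ^ i)⁻¹) f) =
        ((act (shf k p 1) : Module.End k (TH k (ZMod p → k))) ^ i) (P f) := by
      rw [act_pow]
      refine th_ext fun m z => ?_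
      rw [act_val]
      by_cases hm : m = n
      · subst hm
        rw [hP, hP, symMap_apply]
        congr 1
        funext j
        rw [hπgi, inv_pow, inv_inv]
      · rw [hPne _ m hm, hPne _ m hm]
        rfl
    change (φ (P (symMap n (X.rep (g⁻¹ ^ i)⁻¹) f)) n).1
      (fun j => σ0 (X.rep (g ^ i)⁻¹ (w j))) = _
    rw [h4, act_pow, act_pow, act_val]
    refine insens (LinearMap.ker π) _ (hφ1 _ ?_).2 n _ _ fun j => ?_
    · rw [← act_pow]
      exact stab_pow (act_stab hkerstab n) i _ (hPmem f)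
    · rw [LinearMap.mem_ker, map_sub, hσ, hπgi', hσ, ← inv_pow, sub_self]
  rw [Finset.sum_congr rfl hterm]
  have hcyc := hφ2 (P f) (hPmem f)
  rw [cyc_apply] at hcyc
  have hfin : ((∑ i ∈ Finset.range p, (((act (shf k p (-1)) : Module.End k (TH k (ZMod p → k))) ^ i)
        (φ (((act (shf k p 1) : Module.End k (TH k (ZMod p → k))) ^ i) (P f)))) :
          TH k (ZMod p → k)) n).1 (fun j => σ0 (w j)) = (P f n).1 fun j => σ0 (w j) := by
    rw [hcyc]
  rw [Finset.sum_apply, coe_sum, hP] at hfin
  rw [hfin]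
  congr 1
  funext j
  exact hσ (w j)

/-- **Exact self-conjugacy** if the species vanishes on the symmetric forms of degree `n`,
`p - N < n < p`. -/
theorem spc_exact_of_vanish {p : ℕ} [CharP k p] (s : Spc k G) (hs : s.DimBounded)
    (X : Md k G) (hX : X.dim < p)
    (hv : ∀ n, p - X.dim < n → n < p → s.val (Hm X n) = 0) :
    ∃ x : Fin X.dim → ℂ, Function.Injective x ∧ s.val X = ∑ a, x a ∧ (∀ a, ‖x a‖ = 1) ∧
      (∀ a b, x a ^ p = x b ^ p) ∧ (Finite G → ∃ m : ℕ, 0 < m ∧ ∀ a, x a ^ m = 1) ∧
      s.val X.dual = (starRingEnd ℂ) (s.val X) :=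
  exact_of_vanish s.toSpecies (s.toSpecies_dimBounded hs) X (natCast_ne_zero p k) hX hv

/-- **Exact self-conjugacy** at a module with a single Jordan block for `g`, for species which
vanish on the modules projective for `g`. -/
theorem spc_exact {p : ℕ} (hp : p.Prime) [CharP k p] (s : Spc k G) (hs : s.DimBounded)
    (X : Md k G) (hX : X.dim < p) (g : G) (hg : X.rep (g ^ p) = 1) (hc : CyclicAt X g)
    (hv : ∀ B : Md k G, ProjAt p B g → s.val B = 0) :
    ∃ x : Fin X.dim → ℂ, Function.Injective x ∧ s.val X = ∑ a, x a ∧ (∀ a, ‖x a‖ = 1) ∧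
      (∀ a b, x a ^ p = x b ^ p) ∧ (Finite G → ∃ m : ℕ, 0 < m ∧ ∀ a, x a ^ m = 1) ∧
      s.val X.dual = (starRingEnd ℂ) (s.val X) := by
  have : Fact p.Prime := ⟨hp⟩
  exact spc_exact_of_vanish s hs X hX fun n h1 h2 => hv _ (projAt_Hm X g hg hc n h1 h2)

end Pool.Agent.H96BD
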