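import Pool.Agent.Helper96.BD.Tot
import Pool.Agent.Helper96.BD.Exact

/-!
An element of order `p` acting with a single Jordan block: the symmetric forms of degree `n`,
`p - N < n < p`, are projective for the cyclic group it generates.
-/

universe u v w

namespace Pool.Agent.H96BD

open Fin Pool.Agent.H80Green

section Chain

variable {k : Type u} [Field k] {V : Type u} [AddCommGroup V] [Module k V]

lemma act_stab {K : Submodule k V} {a : Module.End k V} (ha : ∀ w ∈ K, a w ∈ K) (n : ℕ) :
    ∀ F ∈ Deg k V n ⊓ Ann K, act a F ∈ Deg k V n ⊓ Ann K := by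
  rintro F ⟨h1, h2⟩
  refine ⟨act_deg a n F h1, fun w hw => ?_⟩
  rw [iot_act, h2 _ (ha w hw), map_zero]

/-- **The chain argument.** -/
theorem hig_ann [Module.Finite k V] {p : ℕ} [hp : Fact p.Prime] [CharP k p]
    (g g' : Module.End k V) (h : g * g' = 1) (h' : g' * g = 1) (hgp : g ^ p = 1)
    (φ : Module.End k V) (hφ : cyc p g g' φ = 1) (d : ℕ) :
    ∀ K : Submodule k V, Module.finrank k K ≤ d → (∀ w ∈ K, g w ∈ K) → ∀ n, d < n → n < p →
      HigS p (act g' : Module.End k (TH k V)) (act g) (Deg k V n ⊓ Ann K) := by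
  have hgp' : g' ^ p = 1 := pow_inv_one h h' hgp
  have hΓ : (act g' : Module.End k (TH k V)) * act g = 1 := by rw [act_mul, h, act_one]
  have hΓ' : (act g : Module.End k (TH k V)) * act g' = 1 := by rw [act_mul, h', act_one]
  have hΓp : (act g' : Module.End k (TH k V)) ^ p = 1 := by rw [act_pow, hgp', act_one]
  have hg'pow : g' = g ^ (p - 1) := by
    calc g' = g' * g ^ p := by rw [hgp, mul_one]
      _ = g' * (g * g ^ (p - 1)) := by rw [← pow_succ', Nat.sub_add_cancel hp.out.one_le]
      _ = g ^ (p - 1) := by rw [← mul_assoc, h', one_mul]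
  have hstab' : ∀ K : Submodule k V, (∀ w ∈ K, g w ∈ K) → ∀ w ∈ K, g' w ∈ K := by
    intro K hK w hw
    rw [hg'pow]
    exact stab_pow hK _ w hw
  induction d with
  | zero =>
    intro K hKd hK n hn hnp
    have hn0 : (n : k) ≠ 0 := natCast_ne_zero p k n (by omega) hnp
    have hK0 : K = ⊥ := Submodule.finrank_eq_zero.1 (Nat.le_zero.1 hKd)
    have hA : Deg k V n ⊓ Ann K = Deg k V n := by
      refine le_antisymm inf_le_left (le_inf le_rfl fun F _ w hw => ?_)
      rw [hK0, Submodule.mem_bot] at hw
      rw [hw, iot_zero]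
    rw [hA]
    refine ⟨(n : k)⁻¹ • der φ, fun F hF => (Deg k V n).smul_mem _ (der_deg φ n F hF),
      fun F hF => ?_⟩
    have h1 : cyc p (act g' : Module.End k (TH k V)) (act g) ((n : k)⁻¹ • der φ) =
        (n : k)⁻¹ • der (1 : Module.End k V) := by
      rw [← hφ, cyc, cyc, der_sum, Finset.smul_sum]
      refine Finset.sum_congr rfl fun i _ => ?_
      rw [act_pow, act_pow, mul_smul_comm, smul_mul_assoc, der_act]
      have hc : Commute g g' := by rw [Commute, SemiconjBy, h, h']
      rw [← hc.mul_pow i, h, one_pow]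
    rw [h1, LinearMap.smul_apply, der_one_deg n F hF, smul_smul, inv_mul_cancel₀ hn0, one_smul]
  | succ d ih =>
    intro K hKd hK n hn hnp
    by_cases hKsmall : Module.finrank k K ≤ d
    · exact ih K hKsmall hK n (by omega) hnp
    have hKpos : 0 < Module.finrank k K := by omega
    have hKne : K ≠ ⊥ := by
      rintro rfl
      simp at hKpos
    have hVnt : Nontrivial V := by
      obtain ⟨x, hx, hx0⟩ := Submodule.exists_mem_ne_zero_of_ne_bot hKne
      exact ⟨x, 0, hx0⟩
    -- the nilpotent part
    set u : Module.End k V := g - 1 with hu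
    have hua : ∀ x, u x = g x - x := fun x => rfl
    have hup : u ^ p = 0 := by
      have hch : CharP (Module.End k V) p :=
        charP_of_injective_algebraMap (algebraMap k (Module.End k V)).injective p
      have := sub_pow_char_of_commute (p := p) (x := g) (y := 1) (Commute.one_right g)
      rw [hgp, one_pow, sub_self] at this
      exact this
    have huK : ∀ w ∈ K, u w ∈ K := fun w hw => K.sub_mem (hK w hw) hw
    have hmap : ¬ K ≤ K.map u := by
      intro hle
      have hall : ∀ i : ℕ, K ≤ K.map (u ^ i) := by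
        intro i
        induction i with
        | zero =>
          rw [pow_zero]
          intro x hx
          exact ⟨x, hx, rfl⟩
        | succ i ihi =>
          intro x hx
          obtain ⟨y, hy, rfl⟩ := hle hx
          obtain ⟨z, hz, rfl⟩ := ihi hy
          refine ⟨z, hz, ?_⟩
          rw [pow_succ']
          rfl
      apply hKne
      rw [eq_bot_iff]
      intro x hx
      obtain ⟨y, hy, rfl⟩ := hall p hx
      rw [hup]
      simp
    obtain ⟨v, hvK, hv⟩ := Set.not_subset.1 hmap
    obtain ⟨l0, hl0, hl0K⟩ := Submodule.exists_le_ker_of_notMem hv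
    set l : V →ₗ[k] k := (l0 v)⁻¹ • l0 with hl
    have hlv : l v = 1 := by
      rw [hl, LinearMap.smul_apply, smul_eq_mul, inv_mul_cancel₀ hl0]
    have hlu : ∀ w ∈ K, l (u w) = 0 := by
      intro w hw
      have h1 : u w ∈ K.map u := ⟨w, hw, rfl⟩
      have h2 : l0 (u w) = 0 := hl0K h1
      rw [hl, LinearMap.smul_apply, h2, smul_zero]
    set K' : Submodule k V := K ⊓ LinearMap.ker l with hK'
    have hK'K : K' ≤ K := inf_le_left
    have hK'l : ∀ w ∈ K', l w = 0 := fun w hw => hw.2
    have hK'lt : K' < K := by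
      refine lt_of_le_of_ne hK'K fun heq => ?_
      have : v ∈ K' := by
        rw [heq]
        exact hvK
      have h2 := hK'l v this
      rw [hlv] at h2
      exact one_ne_zero h2
    have hK'd : Module.finrank k K' ≤ d := by
      have := Submodule.finrank_lt_finrank_of_lt hK'lt
      omega
    have huK' : ∀ w ∈ K, u w ∈ K' := fun w hw => ⟨huK w hw, hlu w hw⟩
    have hK'g : ∀ w ∈ K', g w ∈ K' := by
      intro w hw
      have h1 : g w = w + u w := by rw [hua]; abel
      rw [h1]
      exact K'.add_mem hw (huK' w (hK'K hw))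
    have hK'g' := hstab' K' hK'g
    obtain ⟨m, rfl⟩ : ∃ m, n = m + 1 := ⟨n - 1, by omega⟩
    have hA := ih K' hK'd hK'g (m + 1) (by omega) hnp
    have hB := ih K' hK'd hK'g m (by omega) (by omega)
    refine HigS.ker hΓ hΓ' hΓp (act_stab hK'g' (m + 1)) (act_stab hK'g (m + 1))
      (act_stab hK'g m) (iot v) (tee k (iot v) (mulf l) (m + 1)) ?_ ?_ ?_ ?_ ?_ hA hB
    · rintro F ⟨h1, h2⟩
      refine ⟨iot_deg v m F h1, fun w hw => ?_⟩
      rw [iot_iot, h2 w hw, map_zero]
    · rintro F ⟨h1, h2⟩
      rw [iot_act]
      have h3 : g' v = v + -(g' (u v)) := by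
        rw [hua, map_sub, show g' (g v) = v from LinearMap.congr_fun h' v]
        abel
      have h4 : iot (g' v) F = iot v F := by
        rw [h3, iot_add, h2 _ (K'.neg_mem (hK'g' _ (huK' v hvK))), add_zero]
      rw [h4]
    · rintro F ⟨h1, h2⟩
      exact ⟨tee_deg l v m F h1, tee_ann l v K' hK'l (m + 1) F h2⟩
    · rintro F ⟨h1, h2⟩
      exact iot_tee l v hlv m (fun i h3 h4 => natCast_ne_zero p k i h3 (by omega)) F h1
    · intro F
      constructor
      · rintro ⟨h1, h2⟩
        exact ⟨⟨h1, fun w hw => h2 w (hK'K hw)⟩, h2 v hvK⟩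
      · rintro ⟨⟨h1, h2⟩, h3⟩
        refine ⟨h1, fun w hw => ?_⟩
        have h4 : w - l w • v ∈ K' := by
          refine ⟨K.sub_mem hw (K.smul_mem _ hvK), ?_⟩
          change l (w - l w • v) = 0
          rw [map_sub, map_smul, hlv, smul_eq_mul, mul_one, sub_self]
        have h5 : w = (w - l w • v) + l w • v := by abel
        rw [h5, iot_add, iot_smul, h2 _ h4, h3, smul_zero, add_zero]

/-- A form killed by contraction with `K` depends only on its arguments modulo `K`. -/
lemma insens (K : Submodule k V) (F : TH k V) (hF : F ∈ Ann K) (n : ℕ) (w w' : Fin n → V)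
    (h : ∀ i, w i - w' i ∈ K) : (F n).1 w = (F n).1 w' := by
  classical
  have h0 : ∀ (z : Fin n → V) (i : Fin n), z i ∈ K → (F n).1 z = 0 := by
    intro z i hz
    cases n with
    | zero => exact i.elim0
    | succ n =>
      rw [← symForm_cons_removeNth (F (n + 1)) i z]
      have h1 := hF _ hz
      have h2 : (iot (z i) F n).1 (i.removeNth z) = 0 := by
        rw [h1]
        rfl
      exact h2
  have key : ∀ S : Finset (Fin n), (F n).1 (S.piecewise w w') = (F n).1 w' := by
    intro S
    induction S using Finset.induction_on with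
    | empty => rw [Finset.piecewise_empty]
    | insert a S ha ih =>
      rw [Finset.piecewise_insert, ← ih]
      have h1 := (F n).1.map_update_sub (S.piecewise w w') a (w a) (w' a)
      have h2 : (F n).1 (Function.update (S.piecewise w w') a (w a - w' a)) = 0 := by
        apply h0 _ a
        rw [Function.update_self]
        exact h a
      rw [h2] at h1
      have h3 : Function.update (S.piecewise w w') a (w' a) = S.piecewise w w' := by
        rw [Function.update_eq_self_iff, Finset.piecewise_eq_of_notMem _ _ _ ha]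
      rw [h3] at h1
      exact (sub_eq_zero.1 h1.symm)
  have h1 := key Finset.univ
  rw [Finset.piecewise_univ] at h1
  exact h1

end Chain

end Pool.Agent.H96BD
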