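import Mathlib

/-!
Power series: the complete symmetric functions bound the roots.
-/

namespace Pool.Agent.H96BD

open PowerSeries

lemma coeff_mul_congr {A B : PowerSeries ℂ} (Z : PowerSeries ℂ) {p : ℕ}
    (h : ∀ n < p, coeff n A = coeff n B) : ∀ n < p, coeff n (Z * A) = coeff n (Z * B) := by
  intro n hn
  rw [coeff_mul, coeff_mul]
  refine Finset.sum_congr rfl fun q hq => ?_
  rw [Finset.HasAntidiagonal.mem_antidiagonal] at hq
  rw [h q.2 (by omega)]

lemma geom_mul (c : ℂ) : (mk fun n => c ^ n : PowerSeries ℂ) * (1 - C c * X) = 1 := by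
  have h := congrArg (rescale c) (mk_one_mul_one_sub_eq_one ℂ)
  rw [map_mul, map_sub, map_one, rescale_X] at h
  have h2 : (mk fun n => c ^ n : PowerSeries ℂ) = rescale c (mk 1) := by
    ext n
    simp [coeff_rescale]
  rw [h2, h]

lemma coeff_erase {ι : Type} [Fintype ι] [DecidableEq ι] (y : ι → ℂ) (H : PowerSeries ℂ) {p : ℕ}
    (h : ∀ n < p, coeff n ((∏ a, (1 - C (y a) * X)) * H) = coeff n (1 : PowerSeries ℂ)) (b : ι) :
    ∀ n < p, coeff n ((∏ a ∈ Finset.univ.erase b, (1 - C (y a) * X)) * H) = y b ^ n := by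
  have h1 : (∏ a ∈ Finset.univ.erase b, (1 - C (y a) * X)) * H =
      (mk fun n => y b ^ n : PowerSeries ℂ) * ((∏ a, (1 - C (y a) * X)) * H) := by
    rw [← Finset.mul_prod_erase Finset.univ (fun a => (1 - C (y a) * X : PowerSeries ℂ))
      (Finset.mem_univ b), ← mul_assoc, ← mul_assoc, geom_mul, one_mul]
  intro n hn
  rw [h1, coeff_mul_congr _ h n hn, mul_one, coeff_mk]

lemma norm_coeff_prod {ι : Type} [DecidableEq ι] (y : ι → ℂ) (R : ℝ) (hR : 0 ≤ R) (S : Finset ι) :
    (∀ a ∈ S, ‖y a‖ ≤ R) → ∀ j : ℕ,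
      ‖coeff j (∏ a ∈ S, (1 - C (y a) * X) : PowerSeries ℂ)‖ ≤ (S.card.choose j : ℝ) * R ^ j := by
  induction S using Finset.induction_on with
  | empty =>
    intro _ j
    rw [Finset.prod_empty, coeff_one, Finset.card_empty]
    split_ifs with hj
    · rw [hj]
      simp
    · simp
      positivity
  | insert b S hb ih =>
    intro h j
    have ih' := ih fun a ha => h a (Finset.mem_insert_of_mem ha)
    rw [Finset.prod_insert hb, Finset.card_insert_of_notMem hb, sub_mul, one_mul, map_sub,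
      mul_assoc, coeff_C_mul]
    cases j with
    | zero =>
      rw [coeff_zero_X_mul]
      have h0 := ih' 0
      simp only [Nat.choose_zero_right, pow_zero, mul_one, mul_zero, sub_zero] at h0 ⊢
      exact h0
    | succ j =>
      rw [coeff_succ_X_mul, Nat.choose_succ_succ, Nat.cast_add, add_mul]
      refine (norm_sub_le _ _).trans ?_
      rw [add_comm]
      refine add_le_add ?_ (ih' (j + 1))
      rw [norm_mul, pow_succ]
      calc ‖y b‖ * ‖coeff j (∏ a ∈ S, (1 - C (y a) * X) : PowerSeries ℂ)‖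
          ≤ R * ((S.card.choose j : ℝ) * R ^ j) :=
            mul_le_mul (h b (Finset.mem_insert_self _ _)) (ih' j) (norm_nonneg _) hR
        _ = (S.card.choose j : ℝ) * (R ^ j * R) := by ring

/-- The bound for the largest root. -/
lemma root_bound {N p : ℕ} (hN : N < p) (y : Fin N → ℂ) (H : PowerSeries ℂ)
    (h : ∀ n < p, coeff n ((∏ a, (1 - C (y a) * X)) * H) = coeff n (1 : PowerSeries ℂ))
    (hH : ∀ n < p, ‖coeff n H‖ ≤ ((N - 1 + n).choose (N - 1) : ℝ))
    (R : ℝ) (hR : 1 ≤ R)
    (hRp : (2 : ℝ) ^ (N - 1) * ((p + N - 2).choose (N - 1) : ℝ) ≤ R ^ (p - N)) (a : Fin N) :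
    ‖y a‖ ≤ R := by
  classical
  have hN0 : 0 < N := Nat.pos_of_ne_zero fun h0 => by
    subst h0
    exact a.elim0
  obtain ⟨b, -, hb⟩ := Finset.exists_max_image Finset.univ (fun a => ‖y a‖)
    ⟨a, Finset.mem_univ a⟩
  refine (hb a (Finset.mem_univ a)).trans ?_
  by_contra hcon
  push Not at hcon
  set r : ℝ := ‖y b‖ with hr
  have hr1 : 1 ≤ r := hR.trans hcon.le
  have h1 := coeff_erase y H h b (p - 1) (by omega)
  have h2 : r ^ (p - 1) ≤ ∑ q ∈ Finset.HasAntidiagonal.antidiagonal (p - 1),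
      (((N - 1).choose q.1 : ℝ) * r ^ (N - 1)) * ((p + N - 2).choose (N - 1) : ℝ) := by
    rw [hr, ← norm_pow, ← h1, coeff_mul]
    refine (norm_sum_le _ _).trans (Finset.sum_le_sum fun q hq => ?_)
    rw [Finset.HasAntidiagonal.mem_antidiagonal] at hq
    rw [norm_mul]
    have h3 := norm_coeff_prod y r (by linarith) (Finset.univ.erase b)
      (fun a _ => hb a (Finset.mem_univ a)) q.1
    rw [Finset.card_erase_of_mem (Finset.mem_univ b), Finset.card_univ, Fintype.card_fin] at h3
    refine mul_le_mul (h3.trans ?_) ((hH q.2 (by omega)).trans ?_) (norm_nonneg _) (by positivity)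
    · rcases Nat.lt_or_ge (N - 1) q.1 with h4 | h4
      · rw [Nat.choose_eq_zero_of_lt h4]
        simp
      · exact mul_le_mul_of_nonneg_left (pow_le_pow_right₀ hr1 h4) (Nat.cast_nonneg _)
    · exact_mod_cast Nat.choose_le_choose (N - 1) (by omega)
  have h5 : ∑ q ∈ Finset.HasAntidiagonal.antidiagonal (p - 1),
      (((N - 1).choose q.1 : ℝ) * r ^ (N - 1)) * ((p + N - 2).choose (N - 1) : ℝ) ≤
      2 ^ (N - 1) * r ^ (N - 1) * ((p + N - 2).choose (N - 1) : ℝ) := by
    rw [← Finset.sum_mul, ← Finset.sum_mul]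
    refine mul_le_mul_of_nonneg_right (mul_le_mul_of_nonneg_right ?_ (by positivity))
      (Nat.cast_nonneg _)
    rw [Finset.Nat.sum_antidiagonal_eq_sum_range_succ_mk]
    have h6 : ∑ i ∈ Finset.range (p - 1).succ, ((N - 1).choose i : ℝ) =
        ∑ i ∈ Finset.range (N - 1 + 1), ((N - 1).choose i : ℝ) := by
      symm
      apply Finset.sum_subset
      · intro i hi
        rw [Finset.mem_range] at hi ⊢
        omega
      · intro i _ hi
        rw [Finset.mem_range] at hi
        rw [Nat.choose_eq_zero_of_lt (by omega)]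
        simp
    rw [h6]
    have h7 := Nat.sum_range_choose (N - 1)
    exact le_of_eq (by exact_mod_cast h7)
  have h8 : r ^ (p - N) * r ^ (N - 1) ≤
      (2 ^ (N - 1) * ((p + N - 2).choose (N - 1) : ℝ)) * r ^ (N - 1) := by
    rw [← pow_add, show p - N + (N - 1) = p - 1 by omega]
    calc r ^ (p - 1) ≤ _ := h2
      _ ≤ _ := h5
      _ = _ := by ring
  have h9 : r ^ (p - N) ≤ R ^ (p - N) :=
    (le_of_mul_le_mul_right h8 (by positivity)).trans hRp
  have h10 : r ≤ R := le_of_pow_le_pow_left₀ (by omega) (by linarith) h9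
  linarith

/-- The coefficients for the dimensions. -/
lemma dim_coeff {d p : ℕ} (D : PowerSeries ℂ)
    (h : ∀ n < p, coeff n ((1 - X) ^ (d + 1) * D) = coeff n (1 : PowerSeries ℂ)) :
    ∀ n < p, coeff n D = ((d + n).choose d : ℂ) := by
  intro n hn
  have h1 := coeff_mul_congr (mk fun n => ((d + n).choose d : ℂ)) h n hn
  rw [← mul_assoc, mk_add_choose_mul_one_sub_pow_eq_one, one_mul, mul_one, coeff_mk] at h1
  exact h1

/-- Changing the sign of the variable. -/
lemma coeff_neg_prod {ι : Type} (S : Finset ι) (y : ι → ℂ) (j : ℕ) :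
    coeff j (∏ a ∈ S, (1 - C (y a) * X) : PowerSeries ℂ) =
      (-1) ^ j * coeff j (∏ a ∈ S, (1 + C (y a) * X) : PowerSeries ℂ) := by
  rw [← coeff_rescale]
  refine congrArg (coeff j) ?_
  rw [map_prod]
  refine Finset.prod_congr rfl fun a _ => ?_
  have h1 : rescale (-1 : ℂ) (C (y a)) = C (y a) := by
    ext n
    rw [coeff_rescale, coeff_C]
    split_ifs with hn
    · rw [hn, pow_zero, one_mul]
    · rw [mul_zero]
  rw [map_add, map_one, map_mul, rescale_X, h1]
  simp only [map_neg, map_one]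
  ring

end Pool.Agent.H96BD
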