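import Pool.Agent.Helper96.BD.Mods

/-!
The splitting of the Koszul complex in degrees prime to the characteristic, and the resulting
identity between the values of a species.
-/

universe u v

open scoped TensorProduct

namespace Pool.Agent.H96BD

open Fin Pool.Agent.H80Green

variable {k : Type u} [Field k] {G : Type v} [Group G]

/-- The splitting lemma. -/
lemma iso_split (A B : Md k G) (f : A.carrier →ₗ[k] B.carrier) (g : B.carrier →ₗ[k] A.carrier)
    (hf : ∀ (x : G) (a : A.carrier), f (A.rep x a) = B.rep x (f a))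
    (hg : ∀ (x : G) (b : B.carrier), g (B.rep x b) = A.rep x (g b))
    (W : Submodule k B.carrier) (hW : ∀ x, W ≤ W.comap (B.rep x))
    (hfW : ∀ a, f a ∈ W) (c : k) (hc : c ≠ 0) (h : ∀ b ∈ W, f (g b) = c • b)
    (hK : ∀ x, LinearMap.ker f ≤ (LinearMap.ker f).comap (A.rep x)) :
    Md.Iso A ((A.sub (LinearMap.ker f) hK).prod (B.sub W hW)) := by
  have hfg : ∀ a, f (g (f a)) = c • f a := fun a => h _ (hfW a)
  let F : A.carrier →ₗ[k] (LinearMap.ker f) × W :=
    LinearMap.prod
      (LinearMap.codRestrict (LinearMap.ker f) (LinearMap.id - c⁻¹ • (g ∘ₗ f)) (by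
        intro a
        rw [LinearMap.mem_ker]
        simp only [LinearMap.sub_apply, LinearMap.id_apply, LinearMap.smul_apply,
          LinearMap.comp_apply, map_sub, map_smul, hfg, smul_smul, inv_mul_cancel₀ hc, one_smul,
          sub_self]))
      (LinearMap.codRestrict W f hfW)
  let F' : (LinearMap.ker f) × W →ₗ[k] A.carrier :=
    LinearMap.coprod (LinearMap.ker f).subtype (c⁻¹ • (g ∘ₗ W.subtype))
  have h1 : F' ∘ₗ F = LinearMap.id := by
    refine LinearMap.ext fun a => ?_
    change (a - c⁻¹ • g (f a)) + c⁻¹ • g (f a) = a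
    abel
  have h2 : F ∘ₗ F' = LinearMap.id := by
    refine LinearMap.ext fun q => ?_
    obtain ⟨⟨u, hu⟩, ⟨w, hw⟩⟩ := q
    rw [LinearMap.mem_ker] at hu
    have h3 : f (u + c⁻¹ • g w) = w := by
      rw [map_add, map_smul, hu, h w hw, smul_smul, inv_mul_cancel₀ hc, one_smul, zero_add]
    refine Prod.ext (Subtype.ext ?_) (Subtype.ext ?_)
    · change (u + c⁻¹ • g w) - c⁻¹ • g (f (u + c⁻¹ • g w)) = u
      rw [h3]
      abel
    · exact h3
  refine ⟨LinearEquiv.ofLinearMap F F' h2 h1, fun x a => ?_⟩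
  refine Prod.ext (Subtype.ext ?_) (Subtype.ext ?_)
  · change A.rep x a - c⁻¹ • g (f (A.rep x a)) = A.rep x (a - c⁻¹ • g (f a))
    rw [hf, hg, map_sub, map_smul]
  · exact hf x a

section Koszul

variable (X : Md k G)

lemma kk_stable (j m : ℕ) (x : G) :
    LinearMap.ker (kk (k := k) (V := X.carrier) j m) ≤
      (LinearMap.ker (kk (k := k) (V := X.carrier) j m)).comap ((Fm X (j + 1) m).rep x) := by
  intro F hF
  rw [LinearMap.mem_ker] at hF
  rw [Submodule.mem_comap, LinearMap.mem_ker]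
  change kk j m (frmMap (j + 1) m (X.rep x⁻¹) F) = 0
  rw [kk_equiv, hF, map_zero]

/-- The kernels of the second Koszul map. -/
noncomputable def Km (X : Md k G) : ℕ → ℕ → Md k G
  | 0, m => Fm X 0 m
  | j + 1, m => (Fm X (j + 1) m).sub (LinearMap.ker (kk (k := k) (V := X.carrier) j m))
      (kk_stable X j m)

lemma val_Fm_succ (s : Species k G) (j m : ℕ) (h : ((j + m + 1 : ℕ) : k) ≠ 0) :
    s.val (Fm X (j + 1) m) = s.val (Km X (j + 1) m) + s.val (Km X j (m + 1)) := by
  rw [← s.add]
  apply s.iso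
  cases j with
  | zero =>
    -- `W` is everything
    have h1 := iso_split (Fm X 1 m) (Fm X 0 (m + 1)) (kk (k := k) (V := X.carrier) 0 m)
      (dd (k := k) (V := X.carrier) 0 m)
      (fun x F => kk_equiv 0 m (X.rep x⁻¹) F) (fun x F => dd_equiv 0 m (X.rep x⁻¹) F)
      ⊤ (fun x => fun _ _ => Submodule.mem_top) (fun a => Submodule.mem_top)
      ((m + 1 : ℕ) : k) (by simpa [Nat.zero_add] using h)
      (fun b _ => kos_zero m b) (kk_stable X 0 m)
    refine h1.trans ?_
    refine ⟨LinearEquiv.prodCongr (LinearEquiv.refl k _) Submodule.topEquiv, fun x q => rfl⟩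
  | succ j =>
    have h1 := iso_split (Fm X (j + 2) m) (Fm X (j + 1) (m + 1))
      (kk (k := k) (V := X.carrier) (j + 1) m)
      (dd (k := k) (V := X.carrier) (j + 1) m)
      (fun x F => kk_equiv (j + 1) m (X.rep x⁻¹) F) (fun x F => dd_equiv (j + 1) m (X.rep x⁻¹) F)
      (LinearMap.ker (kk (k := k) (V := X.carrier) j (m + 1))) (kk_stable X j (m + 1))
      (fun a => by
        rw [LinearMap.mem_ker]
        exact kk_kk j m a)
      ((j + 1 + (m + 1) : ℕ) : k) (by
        rw [show j + 1 + (m + 1) = j + 1 + m + 1 by ring]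
        exact h)
      (fun b hb => by
        rw [LinearMap.mem_ker] at hb
        have h2 := kos j m b
        rw [hb, map_zero, add_zero] at h2
        exact h2) (kk_stable X (j + 1) m)
    exact h1

lemma val_Km_last (s : Species k G) (j : ℕ) (h : ((j + 1 : ℕ) : k) ≠ 0) :
    s.val (Km X (j + 1) 0) = 0 := by
  apply s.val_of_dim_zero
  have hker : LinearMap.ker (kk (k := k) (V := X.carrier) j 0) = ⊥ := by
    rw [LinearMap.ker_eq_bot']
    intro F hF
    have h2 := kos_last j F
    rw [hF, map_zero] at h2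
    exact (smul_eq_zero.1 h2.symm).resolve_left h
  change Module.finrank k (LinearMap.ker (kk (k := k) (V := X.carrier) j 0)) = 0
  rw [hker]
  exact finrank_bot k _

lemma koszul_sum_aux (s : Species k G) (n : ℕ) (hn : ∀ i, 1 ≤ i → i ≤ n → ((i : ℕ) : k) ≠ 0)
    (J : ℕ) (hJ : J ≤ n) :
    ∑ j ∈ Finset.range (J + 1), (-1 : ℂ) ^ j * s.val (Fm X j (n - j)) =
      (-1) ^ J * s.val (Km X J (n - J)) := by
  induction J with
  | zero => simp [Km]
  | succ J ih =>
    rw [Finset.sum_range_succ, ih (by omega)]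
    obtain ⟨m, rfl⟩ := Nat.exists_eq_add_of_le hJ
    have h1 : J + 1 + m - J = m + 1 := by omega
    have h2 : J + 1 + m - (J + 1) = m := by omega
    rw [h1, h2, val_Fm_succ X s J m (hn _ (by omega) (by omega)), pow_succ]
    ring

lemma koszul_sum (s : Species k G) (n : ℕ) (hn0 : 1 ≤ n)
    (hn : ∀ i, 1 ≤ i → i ≤ n → ((i : ℕ) : k) ≠ 0) :
    ∑ j ∈ Finset.range (n + 1), (-1 : ℂ) ^ j * s.val (Fm X j (n - j)) = 0 := by
  rw [koszul_sum_aux X s n hn n le_rfl, Nat.sub_self]
  obtain ⟨j, rfl⟩ : ∃ j, n = j + 1 := ⟨n - 1, by omega⟩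
  rw [val_Km_last X s j (hn _ (by omega) le_rfl), mul_zero]

/-- The forms as a tensor product. -/
lemma Fm_iso (j m : ℕ) : Md.Iso (((X.ext j).dual).tensor (Hm X m)) (Fm X j m) := by
  let e : (((X.ext j).dual).tensor (Hm X m)).carrier ≃ₗ[k] (Fm X j m).carrier :=
    (dualTensorHomEquiv k (⋀[k]^j X.carrier) (SF k X.carrier m)).trans
      (exteriorPower.alternatingMapLinearEquiv (R := k) (M := X.carrier)
        (N := SF k X.carrier m) (n := j)).symm
  have he : ∀ (φ : Module.Dual k (⋀[k]^j X.carrier)) (f : SF k X.carrier m)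
      (v : Fin j → X.carrier), (show Frm k X.carrier j m from e (φ ⊗ₜ[k] f)) v =
        φ (exteriorPower.ιMulti k j v) • f := by
    intro φ f v
    rfl
  refine ⟨e, fun x q => ?_⟩
  refine TensorProduct.induction_on q ?_ ?_ ?_
  · rw [map_zero, map_zero, map_zero]
  · intro φ f
    rw [Md.tensor_rep]
    refine AlternatingMap.ext fun v => ?_
    refine (he _ _ v).trans ?_
    change φ (exteriorPower.map j (X.rep x⁻¹) (exteriorPower.ιMulti k j v)) •
      symMap m (X.rep x⁻¹) f = symMap m (X.rep x⁻¹)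
        ((show Frm k X.carrier j m from e (φ ⊗ₜ[k] f)) (fun i => X.rep x⁻¹ (v i)))
    rw [he, map_smul, exteriorPower.map_apply_ιMulti]
    rfl
  · intro a b ha hb
    rw [map_add, map_add, ha, hb, map_add, map_add]

lemma Hm_zero_iso : Md.Iso (Hm X 0) (Md.triv k G) := by
  let e : SF k X.carrier 0 ≃ₗ[k] k :=
    { toFun := fun f => f.1 (fun i => i.elim0)
      map_add' := fun f g => rfl
      map_smul' := fun c f => rfl
      invFun := fun c => SF.mk (MultilinearMap.constOfIsEmpty k _ c) (fun σ w => rfl)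
      left_inv := fun f => by
        ext w
        change f.1 _ = f.1 w
        congr 1
        funext i
        exact i.elim0
      right_inv := fun c => rfl }
  refine ⟨e, fun x f => ?_⟩
  change f.1 _ = f.1 _
  congr 1
  funext i
  exact i.elim0

/-- **The Koszul identity** for a species. -/
theorem koszul_id (s : Species k G) (n : ℕ) (hn0 : 1 ≤ n)
    (hn : ∀ i, 1 ≤ i → i ≤ n → ((i : ℕ) : k) ≠ 0) :
    ∑ j ∈ Finset.range (n + 1), (-1 : ℂ) ^ j * s.val (X.ext j).dual * s.val (Hm X (n - j)) =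
      0 := by
  rw [← koszul_sum X s n hn0 hn]
  refine Finset.sum_congr rfl fun j _ => ?_
  rw [← s.iso _ _ (Fm_iso X j (n - j)), s.mul, mul_assoc]

lemma val_Hm_zero (s : Species k G) : s.val (Hm X 0) = 1 := by
  rw [s.iso _ _ (Hm_zero_iso X), s.one]

end Koszul

end Pool.Agent.H96BD
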