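import Pool.Agent.Helper80.Green.Official

/-!
Symmetric multilinear forms, alternating maps with values in them, and the two Koszul maps.
-/

universe u v

open scoped TensorProduct

namespace Pool.Agent.H96BD

open Fin

section Forms

variable (k : Type u) [Field k] (V : Type u) [AddCommGroup V] [Module k V]

/-- The symmetric `m`-linear forms on `V`. -/
def symForm (m : ℕ) : Submodule k (MultilinearMap k (fun _ : Fin m => V) k) where
  carrier := {f | ∀ (σ : Equiv.Perm (Fin m)) (w : Fin m → V), f (fun i => w (σ i)) = f w}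
  add_mem' := by
    intro f g hf hg σ w
    simp only [add_apply]
    rw [hf, hg]
  zero_mem' := by
    intro σ w
    simp
  smul_mem' := by
    intro c f hf σ w
    simp only [smul_apply]
    rw [hf]

/-- The symmetric `m`-linear forms on `V`, as a type. -/
def SF (m : ℕ) : Type u := symForm k V m

noncomputable instance (m : ℕ) : AddCommGroup (SF k V m) :=
  inferInstanceAs (AddCommGroup (symForm k V m))

noncomputable instance (m : ℕ) : Module k (SF k V m) :=
  inferInstanceAs (Module k (symForm k V m))

variable {k V}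

@[ext] lemma SF.ext {m : ℕ} {f g : SF k V m} (h : ∀ w, f.1 w = g.1 w) : f = g :=
  Subtype.ext (MultilinearMap.ext h)

@[simp] lemma SF.add_val {m : ℕ} (f g : SF k V m) : (f + g).1 = f.1 + g.1 := rfl
@[simp] lemma SF.zero_val {m : ℕ} : (0 : SF k V m).1 = 0 := rfl
@[simp] lemma SF.neg_val {m : ℕ} (f : SF k V m) : (-f).1 = -f.1 := rfl
@[simp] lemma SF.smul_val {m : ℕ} (c : k) (f : SF k V m) : (c • f).1 = c • f.1 := rfl

/-- the constructor -/
def SF.mk {m : ℕ} (f : MultilinearMap k (fun _ : Fin m => V) k)
    (hf : ∀ (σ : Equiv.Perm (Fin m)) (w : Fin m → V), f (fun i => w (σ i)) = f w) : SF k V m :=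
  ⟨f, hf⟩

@[simp] lemma SF.mk_val {m : ℕ} (f : MultilinearMap k (fun _ : Fin m => V) k)
    (hf : ∀ (σ : Equiv.Perm (Fin m)) (w : Fin m → V), f (fun i => w (σ i)) = f w) :
    (SF.mk f hf).1 = f := rfl

lemma symForm_perm {m : ℕ} (f : SF k V m) (σ : Equiv.Perm (Fin m)) (w : Fin m → V) :
    f.1 (fun i => w (σ i)) = f.1 w := f.2 σ w

/-- moving a variable of a symmetric form to the front -/
lemma symForm_cons_removeNth {m : ℕ} (f : SF k V (m + 1)) (l : Fin (m + 1))
    (w : Fin (m + 1) → V) : f.1 (cons (w l) (l.removeNth w)) = f.1 w := by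
  rw [cons_removeNth_eq_comp_cycleRange_symm]
  exact f.2 l.cycleRange.symm w

/-- the value of a symmetric form, as a linear map -/
def SF.val (m : ℕ) : SF k V m →ₗ[k] MultilinearMap k (fun _ : Fin m => V) k where
  toFun f := f.1
  map_add' _ _ := rfl
  map_smul' _ _ := rfl

@[simp] lemma SF.val_apply {m : ℕ} (f : SF k V m) : SF.val m f = f.1 := rfl

/-- The contraction of a symmetric form with a vector. -/
noncomputable def contr (m : ℕ) : SF k V (m + 1) →ₗ[k] V →ₗ[k] SF k V m where
  toFun f :=
    { toFun := fun x => SF.mk (f.1.curryLeft x) (by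
        intro σ w
        rw [MultilinearMap.curryLeft_apply, MultilinearMap.curryLeft_apply]
        have h := f.2 (Equiv.Perm.decomposeFin.symm (0, σ)) (cons x w)
        rw [← h]
        congr 1
        funext i
        refine Fin.cases ?_ (fun j => ?_) i
        · simp
        · simp)
      map_add' := fun x y => by
        ext w
        simp
      map_smul' := fun c x => by
        ext w
        simp }
  map_add' f g := by
    ext x w
    simp
  map_smul' c f := by
    ext x w
    simp

@[simp] lemma contr_apply {m : ℕ} (f : SF k V (m + 1)) (x : V) (w : Fin m → V) :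
    (contr m f x).1 w = f.1 (cons x w) := rfl

omit [AddCommGroup V] in
/-- the permutation of the remaining positions -/
lemma exists_perm_removeNth {m : ℕ} (σ : Equiv.Perm (Fin (m + 1))) (i : Fin (m + 1)) :
    ∃ τ : Equiv.Perm (Fin m), ∀ w : Fin (m + 1) → V,
      i.removeNth (fun j => w (σ j)) = fun l => (σ i).removeNth w (τ l) := by
  have h : ∀ l : Fin m, ∃ l' : Fin m, (σ i).succAbove l' = σ (i.succAbove l) := by
    intro l
    apply exists_succAbove_eq
    intro h
    exact (succAbove_ne i l) (σ.injective h)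
  choose t ht using h
  have hinj : Function.Injective t := by
    intro a b hab
    have h1 : σ (i.succAbove a) = σ (i.succAbove b) := by rw [← ht a, ← ht b, hab]
    exact succAbove_right_injective (σ.injective h1)
  refine ⟨Equiv.ofBijective t (Finite.injective_iff_bijective.1 hinj), fun w => ?_⟩
  funext l
  simp only [Fin.removeNth, Equiv.ofBijective_apply]
  rw [ht]

/-- Symmetrised product: from a linear map to symmetric `m`-forms a symmetric `(m+1)`-form. -/
noncomputable def symProd (m : ℕ) : (V →ₗ[k] SF k V m) →ₗ[k] SF k V (m + 1) where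
  toFun g := SF.mk (∑ i : Fin (m + 1),
      LinearMap.uncurryMid (M := fun _ : Fin (m + 1) => V) i (SF.val m ∘ₗ g)) (by
    intro σ w
    simp only [sum_apply, LinearMap.uncurryMid_apply, LinearMap.comp_apply,
      SF.val_apply]
    rw [← Equiv.sum_comp σ (fun i => (g (w i)).1 (i.removeNth w))]
    refine Finset.sum_congr rfl fun i _ => ?_
    obtain ⟨τ, hτ⟩ := exists_perm_removeNth (V := V) σ i
    rw [hτ w]
    exact (g (w (σ i))).2 τ _)
  map_add' f g := by
    ext w
    simp [Finset.sum_add_distrib]
  map_smul' c f := by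
    ext w
    simp [Finset.mul_sum]

@[simp] lemma symProd_apply {m : ℕ} (g : V →ₗ[k] SF k V m) (w : Fin (m + 1) → V) :
    (symProd m g).1 w = ∑ i : Fin (m + 1), (g (w i)).1 (i.removeNth w) := by
  simp [symProd]

/-- Exchange of a linear and an alternating argument. -/
def flipAlt {W : Type u} [AddCommMonoid W] [Module k W] {j : ℕ}
    (f : V →ₗ[k] V [⋀^Fin j]→ₗ[k] W) : V [⋀^Fin j]→ₗ[k] (V →ₗ[k] W) where
  toFun v :=
    { toFun := fun x => f x v
      map_add' := fun x y => by simp
      map_smul' := fun c x => by simp }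
  map_update_add' v i x y := by
    ext z
    simp
  map_update_smul' v i c x := by
    ext z
    simp
  map_eq_zero_of_eq' v a b hab hne := by
    ext z
    exact (f z).map_eq_zero_of_eq v hab hne

@[simp] lemma flipAlt_apply {W : Type u} [AddCommMonoid W] [Module k W] {j : ℕ}
    (f : V →ₗ[k] V [⋀^Fin j]→ₗ[k] W) (v : Fin j → V) (x : V) : flipAlt f v x = f x v := rfl

/-- Alternating `j`-linear maps with values in the symmetric `m`-forms. -/
abbrev Frm (k : Type u) [Field k] (V : Type u) [AddCommGroup V] [Module k V] (j m : ℕ) : Type u :=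
  V [⋀^Fin j]→ₗ[k] SF k V m

/-- Contraction of the values with a vector. -/
noncomputable def cnt (j m : ℕ) (F : Frm k V j (m + 1)) : V →ₗ[k] Frm k V j m where
  toFun x := ((contr m).flip x).compAlternatingMap F
  map_add' x y := by
    ext v w
    simp
  map_smul' c x := by
    ext v w
    simp

@[simp] lemma cnt_apply {j m : ℕ} (F : Frm k V j (m + 1)) (x : V) (v : Fin j → V)
    (w : Fin m → V) : (cnt j m F x v).1 w = (F v).1 (cons x w) := rfl

lemma coe_sum {m : ℕ} {ι : Type} (s : Finset ι) (f : ι → SF k V m) (w : Fin m → V) :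
    (∑ i ∈ s, f i).1 w = ∑ i ∈ s, (f i).1 w := by
  rw [show (∑ i ∈ s, f i).1 = ∑ i ∈ s, (f i).1 from map_sum (SF.val m) f s,
    sum_apply]

lemma altU_apply {j m : ℕ} (f : V →ₗ[k] Frm k V j m) (v : Fin (j + 1) → V) (w : Fin m → V) :
    (AlternatingMap.alternatizeUncurryFin (R := k) (M := V) (N := SF k V m) f v).1 w =
      ∑ i : Fin (j + 1), (-1) ^ (i : ℕ) * (f (v i) (i.removeNth v)).1 w := by
  rw [AlternatingMap.alternatizeUncurryFin_apply, coe_sum]
  refine Finset.sum_congr rfl fun i _ => ?_
  rcases Nat.even_or_odd (i : ℕ) with h | h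
  · simp [h.neg_one_pow]
  · simp [h.neg_one_pow]

/-- The first Koszul map. -/
noncomputable def dd (j m : ℕ) : Frm k V j (m + 1) →ₗ[k] Frm k V (j + 1) m where
  toFun F := AlternatingMap.alternatizeUncurryFin (R := k) (M := V) (N := SF k V m) (cnt j m F)
  map_add' F G := by
    ext v w
    simp [altU_apply, Finset.sum_add_distrib, mul_add]
  map_smul' c F := by
    ext v w
    simp [altU_apply, Finset.mul_sum, mul_left_comm]

lemma dd_apply {j m : ℕ} (F : Frm k V j (m + 1)) (v : Fin (j + 1) → V) (w : Fin m → V) :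
    (dd j m F v).1 w =
      ∑ i : Fin (j + 1), (-1) ^ (i : ℕ) * (F (i.removeNth v)).1 (cons (v i) w) :=
  altU_apply (cnt j m F) v w

/-- The second Koszul map. -/
noncomputable def kk (j m : ℕ) : Frm k V (j + 1) m →ₗ[k] Frm k V j (m + 1) where
  toFun F := (symProd m).compAlternatingMap (flipAlt (W := SF k V m) F.curryLeft)
  map_add' F G := by
    ext v w
    simp [Finset.sum_add_distrib]
  map_smul' c F := by
    ext v w
    simp [Finset.mul_sum]

lemma kk_apply {j m : ℕ} (F : Frm k V (j + 1) m) (v : Fin j → V) (w : Fin (m + 1) → V) :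
    (kk j m F v).1 w = ∑ l : Fin (m + 1), (F (cons (w l) v)).1 (l.removeNth w) := by
  simp only [kk, LinearMap.coe_mk, AddHom.coe_mk, LinearMap.compAlternatingMap_apply,
    symProd_apply, flipAlt_apply, AlternatingMap.curryLeft_apply_apply]
  rfl

end Forms

end Pool.Agent.H96BD
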