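import Pool.Agent.Helper96.BD.Split
import Pool.Agent.Helper96.BD.Ser

/-!
Approximate self-conjugacy of a dimension bounded species on modules of dimension less than `p`.
-/

universe u v

namespace Pool.Agent.H96BD

open Pool.Agent.H80Green

variable {k : Type u} [Field k] {G : Type v} [Group G]

/-- The generating function of the values on the modules of symmetric forms. -/
noncomputable def hser (s : Species k G) (M : Md k G) : PowerSeries ℂ :=
  PowerSeries.mk fun n => s.val (Hm M n)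

open PowerSeries in
lemma hser_mul (s : Species k G) (M : Md k G) {p : ℕ}
    (hp : ∀ i, 1 ≤ i → i < p → ((i : ℕ) : k) ≠ 0) {ι : Type} [Fintype ι] (y : ι → ℂ)
    (hy : (PowerSeries.mk fun j => s.val (M.ext j).dual : PowerSeries ℂ) =
      ∏ a, (1 + C (y a) * X)) :
    ∀ n < p, coeff n ((∏ a, (1 - C (y a) * X)) * hser s M) = coeff n (1 : PowerSeries ℂ) := by
  intro n hn
  rw [coeff_mul]
  have h1 : ∀ q : ℕ × ℕ, coeff q.1 (∏ a, (1 - C (y a) * X) : PowerSeries ℂ) *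
      coeff q.2 (hser s M) = (-1 : ℂ) ^ q.1 * s.val (M.ext q.1).dual * s.val (Hm M q.2) := by
    intro q
    rw [coeff_neg_prod, ← hy, coeff_mk, hser, coeff_mk]
  rw [Finset.sum_congr rfl fun q _ => h1 q,
    Finset.Nat.sum_antidiagonal_eq_sum_range_succ
      (fun i j => (-1 : ℂ) ^ i * s.val (M.ext i).dual * s.val (Hm M j)) n, coeff_one]
  split_ifs with h0
  · subst h0
    have h2 : s.val (M.ext 0).dual = 1 := by
      rw [s.iso _ _ (Md.dual_iso (Md.ext_zero M)), s.iso _ _ Md.dual_triv, s.one]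
    simp [h2, val_Hm_zero]
  · exact koszul_id M s n (by omega) fun i h3 h4 => hp i h3 (by omega)

/-- The dimension as a species. -/
noncomputable def dimSp (k : Type u) [Field k] (G : Type v) [Group G] : Species k G where
  val M := (M.dim : ℂ)
  iso M M' h := by rw [h.dim_eq]
  add M M' := by
    rw [Md.dim_prod]
    push_cast
    rfl
  mul M M' := by
    rw [Md.dim_tensor]
    push_cast
    rfl
  one := by
    rw [Md.dim_triv]
    norm_num

open PowerSeries in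
lemma one_add_X_pow_eq (N : ℕ) :
    (PowerSeries.mk fun j => ((N.choose j : ℕ) : ℂ) : PowerSeries ℂ) = (1 + X) ^ N := by
  have h := congrArg (fun q : Polynomial ℂ => (q : PowerSeries ℂ))
    (rfl : ((1 + Polynomial.X) ^ N : Polynomial ℂ) = (1 + Polynomial.X) ^ N)
  ext j
  have h1 : (((1 + Polynomial.X) ^ N : Polynomial ℂ) : PowerSeries ℂ) = (1 + X) ^ N := by
    simp
  rw [coeff_mk, ← h1, Polynomial.coeff_coe, Polynomial.coeff_one_add_X_pow]

open PowerSeries in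
lemma dim_Hm (M : Md k G) {p : ℕ} (hp : ∀ i, 1 ≤ i → i < p → ((i : ℕ) : k) ≠ 0)
    (hM : 0 < M.dim) (n : ℕ) (hn : n < p) :
    ((Hm M n).dim : ℂ) = ((M.dim - 1 + n).choose (M.dim - 1) : ℂ) := by
  have h1 : ∀ n < p, coeff n ((1 - X) ^ (M.dim - 1 + 1) * hser (dimSp k G) M) =
      coeff n (1 : PowerSeries ℂ) := by
    have h2 := hser_mul (dimSp k G) M hp (fun _ : Fin M.dim => (1 : ℂ)) (by
      have h3 : (PowerSeries.mk fun j => (dimSp k G).val (M.ext j).dual : PowerSeries ℂ) =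
          (1 + X) ^ M.dim := by
        rw [← one_add_X_pow_eq]
        congr 1
        funext j
        change (((M.ext j).dual.dim : ℕ) : ℂ) = _
        rw [Md.dim_dual, Md.dim_ext]
      rw [h3]
      simp)
    rw [Nat.sub_add_cancel hM]
    simpa using h2
  have h2 := dim_coeff _ h1 n hn
  rw [hser, coeff_mk] at h2
  exact h2

/-- The bound for one half of the roots. -/
lemma norm_le_of_series (s : Species k G) (hs : s.DimBounded) (M : Md k G) {p : ℕ}
    (hp : ∀ i, 1 ≤ i → i < p → ((i : ℕ) : k) ≠ 0) (hM : M.dim < p) (y : Fin M.dim → ℂ)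
    (hy : (PowerSeries.mk fun j => s.val (M.ext j).dual : PowerSeries ℂ) =
      ∏ a, (1 + PowerSeries.C (y a) * PowerSeries.X))
    (R : ℝ) (hR : 1 ≤ R)
    (hRp : (2 : ℝ) ^ (M.dim - 1) * ((p + M.dim - 2).choose (M.dim - 1) : ℝ) ≤
      R ^ (p - M.dim)) (a : Fin M.dim) : ‖y a‖ ≤ R := by
  refine root_bound hM y (hser s M) (hser_mul s M hp y hy) ?_ R hR hRp a
  intro n hn
  have hM0 : 0 < M.dim := a.pos
  rw [hser, PowerSeries.coeff_mk]
  refine (hs.le (Hm M n)).trans (le_of_eq ?_)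
  have h := dim_Hm M hp hM0 n hn
  exact_mod_cast h

open PowerSeries in
lemma map_conj_prod {ι : Type} (S : Finset ι) (y : ι → ℂ) :
    PowerSeries.map (starRingEnd ℂ) (∏ a ∈ S, (1 + C (y a) * X)) =
      ∏ a ∈ S, (1 + C ((starRingEnd ℂ) (y a)) * X) := by
  rw [map_prod]
  refine Finset.prod_congr rfl fun a _ => ?_
  simp

lemma norm_inv_sub_conj (t : ℂ) (ht : t ≠ 0) (R : ℝ) (hR : 1 ≤ R) (h1 : R⁻¹ ≤ ‖t‖)
    (h2 : ‖t‖ ≤ R) : ‖t⁻¹ - (starRingEnd ℂ) t‖ ≤ R - R⁻¹ := by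
  have ht' : 0 < ‖t‖ := norm_pos_iff.2 ht
  have hR0 : 0 < R := by linarith
  have h3 : t⁻¹ - (starRingEnd ℂ) t = (starRingEnd ℂ) t * (((‖t‖ ^ 2)⁻¹ - 1 : ℝ) : ℂ) := by
    rw [Complex.inv_def, Complex.normSq_eq_norm_sq]
    push_cast
    ring
  rw [h3, norm_mul, RCLike.norm_conj, Complex.norm_real, Real.norm_eq_abs]
  have h4 : ‖t‖ * |(‖t‖ ^ 2)⁻¹ - 1| = |‖t‖⁻¹ - ‖t‖| := by
    rw [← abs_of_pos ht', ← abs_mul, abs_of_pos ht']
    congr 1
    field_simp
  rw [h4, abs_le]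
  have h5 : ‖t‖⁻¹ ≤ R := by
    rw [inv_le_comm₀ ht' hR0]
    exact h1
  have h6 : R⁻¹ ≤ ‖t‖⁻¹ := inv_anti₀ ht' h2
  constructor <;> linarith

/-- The roots of a module of dimension less than `p`, for a dimension bounded species. -/
theorem roots (s : Species k G) (hs : s.DimBounded) (M : Md k G) {p : ℕ}
    (hp : ∀ i, 1 ≤ i → i < p → ((i : ℕ) : k) ≠ 0) (hM : M.dim < p) :
    ∃ x : Fin M.dim → ℂ, (∀ a, x a ≠ 0) ∧
      s.eser M = ∏ a, (1 + PowerSeries.C (x a) * PowerSeries.X) ∧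
      s.val M = ∑ a, x a ∧ s.val M.dual = ∑ a, (x a)⁻¹ ∧
      ∀ R : ℝ, 1 ≤ R →
        (2 : ℝ) ^ (M.dim - 1) * ((p + M.dim - 2).choose (M.dim - 1) : ℝ) ≤ R ^ (p - M.dim) →
        (∀ a, R⁻¹ ≤ ‖x a‖ ∧ ‖x a‖ ≤ R) ∧
        ‖s.val M.dual - (starRingEnd ℂ) (s.val M)‖ ≤ M.dim * (R - R⁻¹) := by
  obtain ⟨t, ht, h1, h2⟩ := s.exists_roots_dual M
  refine ⟨t, ht, h1, s.val_eq_sum M t h1, s.val_dual_eq_sum M t h2, fun R hR hRp => ?_⟩
  have h3 : ∀ a, ‖(t a)⁻¹‖ ≤ R := by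
    refine norm_le_of_series s hs M hp hM (fun a => (t a)⁻¹) ?_ R hR hRp
    have h4 := congrArg (PowerSeries.map (starRingEnd ℂ)) h2
    rw [map_conj_prod] at h4
    simp only [Complex.conj_conj] at h4
    rw [← h4]
    ext j
    rw [PowerSeries.coeff_map, Species.eser, PowerSeries.coeff_mk, PowerSeries.coeff_mk,
      Species.conjDual_val, Complex.conj_conj]
  have h5 : ∀ a, ‖(starRingEnd ℂ) (t a)‖ ≤ R := by
    refine norm_le_of_series s.conjDual (s.conjDual_dimBounded hs) M hp hM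
      (fun a => (starRingEnd ℂ) (t a)) ?_ R hR hRp
    rw [← map_conj_prod, ← h1]
    ext j
    rw [PowerSeries.coeff_map, Species.eser, PowerSeries.coeff_mk, PowerSeries.coeff_mk,
      Species.conjDual_val, s.iso _ _ (Md.dual_dual _)]
  have h6 : ∀ a, R⁻¹ ≤ ‖t a‖ ∧ ‖t a‖ ≤ R := by
    intro a
    have h7 := h3 a
    have h8 := h5 a
    rw [RCLike.norm_conj] at h8
    rw [norm_inv] at h7
    refine ⟨?_, h8⟩
    exact (inv_le_comm₀ (norm_pos_iff.2 (ht a)) (by linarith)).1 h7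
  refine ⟨h6, ?_⟩
  rw [s.val_dual_eq_sum M t h2, s.val_eq_sum M t h1, map_sum, ← Finset.sum_sub_distrib]
  refine (norm_sum_le _ _).trans ?_
  calc ∑ a, ‖(t a)⁻¹ - (starRingEnd ℂ) (t a)‖ ≤ ∑ _a : Fin M.dim, (R - R⁻¹) :=
        Finset.sum_le_sum fun a _ => norm_inv_sub_conj (t a) (ht a) R hR (h6 a).1 (h6 a).2
    _ = M.dim * (R - R⁻¹) := by
        rw [Finset.sum_const, Finset.card_univ, Fintype.card_fin, nsmul_eq_mul]

end Pool.Agent.H96BD
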