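import Pool.Agent.Helper96.BD.Hig

/-!
Symmetric forms of all degrees on a space with an automorphism of order `p`.
-/

universe u v w

namespace Pool.Agent.H96BD

open Fin

variable {k : Type u} [Field k] {V : Type u} [AddCommGroup V] [Module k V]

/-- Symmetric forms, one of every degree. -/
abbrev TH (k : Type u) [Field k] (V : Type u) [AddCommGroup V] [Module k V] : Type u :=
  (m : ℕ) → SF k V m

lemma th_ext {F F' : TH k V} (h : ∀ m w, (F m).1 w = (F' m).1 w) : F = F' :=
  funext fun m => SF.ext (h m)

/-- contraction with a vector -/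
noncomputable def iot (v : V) : Module.End k (TH k V) where
  toFun F := fun m => contr m (F (m + 1)) v
  map_add' F F' := by
    apply th_ext
    intro m w
    simp
  map_smul' c F := by
    apply th_ext
    intro m w
    simp

@[simp] lemma iot_val (v : V) (F : TH k V) (m : ℕ) (w : Fin m → V) :
    (iot v F m).1 w = (F (m + 1)).1 (cons v w) := rfl

/-- multiplication with a linear form -/
noncomputable def mulf (l : V →ₗ[k] k) : Module.End k (TH k V) where
  toFun F
    | 0 => 0
    | m + 1 => symProd m (l.smulRight (F m))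
  map_add' F F' := by
    apply th_ext
    intro m w
    cases m with
    | zero => simp
    | succ m => simp [Finset.sum_add_distrib]
  map_smul' c F := by
    apply th_ext
    intro m w
    cases m with
    | zero => simp
    | succ m => simp [Finset.mul_sum, mul_left_comm]

lemma mulf_zero (l : V →ₗ[k] k) (F : TH k V) : mulf l F 0 = 0 := rfl

lemma mulf_succ (l : V →ₗ[k] k) (F : TH k V) (m : ℕ) (w : Fin (m + 1) → V) :
    (mulf l F (m + 1)).1 w = ∑ i, l (w i) * (F m).1 (i.removeNth w) := by
  have : mulf l F (m + 1) = symProd m (l.smulRight (F m)) := rfl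
  rw [this, symProd_apply]
  rfl

/-- derivation extending an endomorphism -/
noncomputable def der (φ : V →ₗ[k] V) : Module.End k (TH k V) where
  toFun F
    | 0 => 0
    | m + 1 => symProd m ((contr m (F (m + 1))) ∘ₗ φ)
  map_add' F F' := by
    apply th_ext
    intro m w
    cases m with
    | zero => simp
    | succ m => simp [Finset.sum_add_distrib]
  map_smul' c F := by
    apply th_ext
    intro m w
    cases m with
    | zero => simp
    | succ m => simp [Finset.mul_sum]

lemma der_zero (φ : V →ₗ[k] V) (F : TH k V) : der φ F 0 = 0 := rfl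

lemma der_succ (φ : V →ₗ[k] V) (F : TH k V) (m : ℕ) (w : Fin (m + 1) → V) :
    (der φ F (m + 1)).1 w = ∑ i, (F (m + 1)).1 (cons (φ (w i)) (i.removeNth w)) := by
  have : der φ F (m + 1) = symProd m ((contr m (F (m + 1))) ∘ₗ φ) := rfl
  rw [this, symProd_apply]
  rfl

/-- the action of an endomorphism -/
noncomputable def act (a : V →ₗ[k] V) : Module.End k (TH k V) where
  toFun F := fun m => symMap m a (F m)
  map_add' F F' := by
    apply th_ext
    intro m w
    simp
  map_smul' c F := by
    apply th_ext
    intro m w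
    simp

@[simp] lemma act_val (a : V →ₗ[k] V) (F : TH k V) (m : ℕ) (w : Fin m → V) :
    (act a F m).1 w = (F m).1 fun i => a (w i) := rfl

lemma act_one : act (1 : Module.End k V) = (1 : Module.End k (TH k V)) := by
  refine LinearMap.ext fun F => th_ext fun m w => ?_
  simp

lemma act_mul (a b : Module.End k V) : act a * act b = (act (b * a) : Module.End k (TH k V)) := by
  refine LinearMap.ext fun F => th_ext fun m w => ?_
  rfl

lemma act_pow (a : Module.End k V) (i : ℕ) : (act a : Module.End k (TH k V)) ^ i = act (a ^ i) := by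
  induction i with
  | zero => simp [act_one]
  | succ i ih => rw [pow_succ, ih, act_mul, ← pow_succ']

lemma cons_map {m : ℕ} (a : V →ₗ[k] V) (v : V) (w : Fin m → V) :
    (fun i => a ((cons v w : Fin (m + 1) → V) i)) = cons (a v) fun i => a (w i) := by
  funext i
  refine Fin.cases ?_ (fun i => ?_) i <;> simp

lemma iot_act (a : V →ₗ[k] V) (v : V) (F : TH k V) : iot v (act a F) = act a (iot (a v) F) := by
  refine th_ext fun m w => ?_
  rw [iot_val, act_val, act_val, iot_val, cons_map]

lemma iot_add (v v' : V) (F : TH k V) : iot (v + v') F = iot v F + iot v' F := by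
  refine th_ext fun m w => ?_
  have h : (iot v F + iot v' F) m = iot v F m + iot v' F m := rfl
  rw [h, SF.add_val, add_apply, iot_val, iot_val, iot_val]
  have := (F (m + 1)).1.cons_add w v v'
  exact this

lemma iot_smul (c : k) (v : V) (F : TH k V) : iot (c • v) F = c • iot v F := by
  refine th_ext fun m w => ?_
  have h : (c • iot v F) m = c • iot v F m := rfl
  rw [h, SF.smul_val, smul_apply, iot_val, iot_val]
  exact (F (m + 1)).1.cons_smul w c v

lemma iot_zero (F : TH k V) : iot (0 : V) F = 0 := by
  have := iot_smul (0 : k) (0 : V) F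
  simpa using this

lemma iot_iot (v v' : V) (F : TH k V) : iot v (iot v' F) = iot v' (iot v F) := by
  refine th_ext fun m w => ?_
  rw [iot_val, iot_val, iot_val, iot_val]
  rw [← symForm_perm (F (m + 1 + 1)) (Equiv.swap 0 1)]
  congr 1
  funext t
  refine Fin.cases ?_ (fun t => ?_) t
  · simp
  · refine Fin.cases ?_ (fun t => ?_) t
    · simp
    · have h4 : Equiv.swap (0 : Fin (m + 2)) 1 t.succ.succ = t.succ.succ :=
        Equiv.swap_apply_of_ne_of_ne (by simp) (by
          intro h
          have := congrArg Fin.val h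
          simp at this)
      simp [h4]

lemma rem_succ_cons {α : Type*} {n : ℕ} (i : Fin (n + 1)) (a : α) (v : Fin (n + 1) → α) :
    i.succ.removeNth (cons a v : Fin (n + 2) → α) = (cons a (i.removeNth v) : Fin (n + 1) → α) := by
  funext l
  refine Fin.cases ?_ (fun l => ?_) l
  · simp [Fin.removeNth]
  · simp [Fin.removeNth]

lemma iot_mulf (l : V →ₗ[k] k) (v : V) (F : TH k V) :
    iot v (mulf l F) = l v • F + mulf l (iot v F) := by
  refine th_ext fun m w => ?_
  have h : (l v • F + mulf l (iot v F)) m = l v • F m + mulf l (iot v F) m := rfl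
  have h0 : (0 : Fin (m + 1)).removeNth (cons v w : Fin (m + 1) → V) = w := by
    funext l
    simp [Fin.removeNth]
  rw [iot_val, mulf_succ, h, SF.add_val, add_apply, SF.smul_val, smul_apply, Fin.sum_univ_succ,
    h0, cons_zero, smul_eq_mul]
  refine congrArg (l v * (F m).1 w + ·) ?_
  · cases m with
    | zero =>
      rw [mulf_zero]
      simp
    | succ m =>
      rw [mulf_succ]
      refine Finset.sum_congr rfl fun i _ => ?_
      rw [cons_succ, iot_val, rem_succ_cons]

lemma der_act (a a' φ : Module.End k V) (h : a' * a = 1) :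
    act a * der φ * act a' = (der (a' * φ * a) : Module.End k (TH k V)) := by
  refine LinearMap.ext fun F => th_ext fun m w => ?_
  change (der φ (act a' F) m).1 (fun i => a (w i)) = _
  cases m with
  | zero =>
    rw [der_zero, der_zero]
    rfl
  | succ m =>
    rw [der_succ, der_succ]
    refine Finset.sum_congr rfl fun i _ => ?_
    rw [act_val, cons_map]
    congr 2
    funext j
    exact LinearMap.congr_fun h _

lemma der_sum {ι : Type} (S : Finset ι) (φ : ι → Module.End k V) :
    der (∑ i ∈ S, φ i) = (∑ i ∈ S, der (φ i) : Module.End k (TH k V)) := by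
  classical
  induction S using Finset.induction_on with
  | empty =>
    refine LinearMap.ext fun F => th_ext fun m w => ?_
    rw [Finset.sum_empty, Finset.sum_empty]
    change (der 0 F m).1 w = 0
    cases m with
    | zero => rfl
    | succ m =>
      rw [der_succ]
      refine Finset.sum_eq_zero fun i _ => ?_
      have := (F (m + 1)).1.cons_smul (i.removeNth w) (0 : k) 0
      simpa using this
  | insert b S hb ih =>
    rw [Finset.sum_insert hb, Finset.sum_insert hb, ← ih]
    refine LinearMap.ext fun F => th_ext fun m w => ?_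
    change (der _ F m).1 w = (der (φ b) F m).1 w + (der _ F m).1 w
    cases m with
    | zero =>
      rw [der_zero, der_zero, der_zero]
      simp
    | succ m =>
      rw [der_succ, der_succ, der_succ, ← Finset.sum_add_distrib]
      refine Finset.sum_congr rfl fun i _ => ?_
      exact (F (m + 1)).1.cons_add (i.removeNth w) _ _

/-- The forms concentrated in degree `n`. -/
def Deg (k : Type u) [Field k] (V : Type u) [AddCommGroup V] [Module k V] (n : ℕ) :
    Submodule k (TH k V) where
  carrier := {F | ∀ m, m ≠ n → F m = 0}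
  add_mem' := by
    intro F F' hF hF' m hm
    change F m + F' m = 0
    rw [hF m hm, hF' m hm, add_zero]
  zero_mem' := fun m _ => rfl
  smul_mem' := by
    intro c F hF m hm
    change c • F m = 0
    rw [hF m hm, smul_zero]

/-- The forms killed by contraction with the elements of `K`. -/
def Ann (K : Submodule k V) : Submodule k (TH k V) where
  carrier := {F | ∀ w ∈ K, iot w F = 0}
  add_mem' := by
    intro F F' hF hF' w hw
    rw [map_add, hF w hw, hF' w hw, add_zero]
  zero_mem' := fun w _ => map_zero _
  smul_mem' := by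
    intro c F hF w hw
    rw [map_smul, hF w hw, smul_zero]

lemma der_one_deg (n : ℕ) (F : TH k V) (hF : F ∈ Deg k V n) :
    der (1 : Module.End k V) F = (n : k) • F := by
  refine th_ext fun m w => ?_
  change _ = ((n : k) • (F m).1) w
  rw [smul_apply]
  cases m with
  | zero =>
    rw [der_zero]
    rcases Nat.eq_zero_or_pos n with h | h
    · subst h
      simp
    · rw [hF 0 (by omega)]
      simp
  | succ m =>
    rw [der_succ]
    have h1 : ∀ i : Fin (m + 1), (F (m + 1)).1 (cons ((1 : Module.End k V) (w i))
        (i.removeNth w)) = (F (m + 1)).1 w := fun i => symForm_cons_removeNth (F (m + 1)) i w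
    rw [Finset.sum_congr rfl fun i _ => h1 i, Finset.sum_const, Finset.card_univ,
      Fintype.card_fin, nsmul_eq_mul, smul_eq_mul]
    by_cases h : m + 1 = n
    · subst h
      rfl
    · rw [hF (m + 1) h]
      simp

lemma iot_deg (v : V) (n : ℕ) : ∀ F ∈ Deg k V (n + 1), iot v F ∈ Deg k V n := by
  intro F hF m hm
  apply SF.ext
  intro w
  rw [iot_val, hF (m + 1) (by omega)]
  rfl

lemma iot_deg_zero (v : V) : ∀ F ∈ Deg k V 0, iot v F = 0 := by
  intro F hF
  refine th_ext fun m w => ?_
  rw [iot_val, hF (m + 1) (by omega)]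
  rfl

lemma mulf_deg (l : V →ₗ[k] k) (n : ℕ) : ∀ F ∈ Deg k V n, mulf l F ∈ Deg k V (n + 1) := by
  intro F hF m hm
  cases m with
  | zero => exact mulf_zero l F
  | succ m =>
    apply SF.ext
    intro w
    rw [mulf_succ, hF m (by omega)]
    simp

lemma der_deg (φ : V →ₗ[k] V) (n : ℕ) : ∀ F ∈ Deg k V n, der φ F ∈ Deg k V n := by
  intro F hF m hm
  cases m with
  | zero => exact der_zero φ F
  | succ m =>
    apply SF.ext
    intro w
    rw [der_succ, hF (m + 1) hm]
    simp

lemma act_deg (a : V →ₗ[k] V) (n : ℕ) : ∀ F ∈ Deg k V n, act a F ∈ Deg k V n := by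
  intro F hF m hm
  apply SF.ext
  intro w
  rw [act_val, hF m hm]
  rfl

lemma iot_pow_deg (v : V) (j m : ℕ) : ∀ F ∈ Deg k V (m + j), ((iot v) ^ j) F ∈ Deg k V m := by
  induction j with
  | zero => exact fun F hF => hF
  | succ j ih =>
    intro F hF
    rw [pow_succ, Module.End.mul_apply]
    exact ih _ (iot_deg v _ F hF)

lemma iot_pow_zero (v : V) (m : ℕ) : ∀ F ∈ Deg k V m, ((iot v) ^ (m + 1)) F = 0 := by
  intro F hF
  rw [pow_succ', Module.End.mul_apply]
  exact iot_deg_zero v _ (iot_pow_deg v m 0 F (by rwa [Nat.zero_add]))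

lemma mulf_pow_deg (l : V →ₗ[k] k) (j m : ℕ) :
    ∀ F ∈ Deg k V m, ((mulf l) ^ j) F ∈ Deg k V (m + j) := by
  induction j with
  | zero => exact fun F hF => hF
  | succ j ih =>
    intro F hF
    rw [pow_succ', Module.End.mul_apply]
    exact mulf_deg l _ _ (ih F hF)

lemma tee_deg (l : V →ₗ[k] k) (v : V) (m : ℕ) :
    ∀ F ∈ Deg k V m, tee k (iot v) (mulf l) (m + 1) F ∈ Deg k V (m + 1) := by
  intro F hF
  rw [tee, LinearMap.sum_apply]
  refine (Deg k V (m + 1)).sum_mem fun j hj => ?_
  rw [Finset.mem_range] at hj
  rw [LinearMap.smul_apply]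
  refine (Deg k V (m + 1)).smul_mem _ ?_
  rw [Module.End.mul_apply]
  have h1 := iot_pow_deg v j (m - j) F (by rwa [Nat.sub_add_cancel (by omega)])
  have h2 := mulf_pow_deg l (j + 1) (m - j) _ h1
  rwa [show m - j + (j + 1) = m + 1 by omega] at h2

lemma tee_ann (l : V →ₗ[k] k) (v : V) (K : Submodule k V) (hK : ∀ w ∈ K, l w = 0) (n : ℕ) :
    ∀ F ∈ Ann K, tee k (iot v) (mulf l) n F ∈ Ann K := by
  have h1 : ∀ F ∈ Ann K, iot v F ∈ Ann K := by
    intro F hF w hw
    rw [iot_iot, hF w hw, map_zero]
  have h2 : ∀ F ∈ Ann K, mulf l F ∈ Ann K := by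
    intro F hF w hw
    rw [iot_mulf, hF w hw, hK w hw, zero_smul, map_zero, add_zero]
  intro F hF
  rw [tee, LinearMap.sum_apply]
  refine (Ann K).sum_mem fun j _ => ?_
  rw [LinearMap.smul_apply, Module.End.mul_apply]
  exact (Ann K).smul_mem _ (stab_pow h2 _ _ (stab_pow h1 _ _ hF))

lemma iot_tee (l : V →ₗ[k] k) (v : V) (hv : l v = 1) (m : ℕ)
    (hn : ∀ i, 1 ≤ i → i ≤ m + 1 → ((i : ℕ) : k) ≠ 0) (F : TH k V) (hF : F ∈ Deg k V m) :
    iot v (tee k (iot v) (mulf l) (m + 1) F) = F := by
  have h1 : (iot v : Module.End k (TH k V)) * mulf l = 1 + mulf l * iot v := by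
    refine LinearMap.ext fun F => ?_
    change iot v (mulf l F) = F + mulf l (iot v F)
    rw [iot_mulf, hv, one_smul]
  have h2 := LinearMap.congr_fun (iota_tee (k := k) h1 (m + 1) hn) F
  rw [Module.End.mul_apply] at h2
  rw [h2, LinearMap.sub_apply, LinearMap.smul_apply, Module.End.mul_apply, iot_pow_zero v m F hF,
    map_zero, smul_zero, sub_zero]
  rfl

end Pool.Agent.H96BD
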